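import Pool.Agent.Run7.h552.CT.Grade
import Pool.Agent.Run7.h853.Cy.N4
import Pool.Agent.Run7.h853.Cy.SlProp
import Pool.Agent.Y127.G.Form

/-!
# Irreducible Lie algebras with an element of Calabi-Yau type
-/

set_option autoImplicit false
set_option linter.unusedSectionVars false

namespace Run7.h552.CT

open Module Finset Run7.h853.Cy Pool.Agent.Y127.G Pool.Agent.TH125.Gal

universe u v

variable {K : Type u} [Field K] [CharZero K] {V : Type v} [AddCommGroup V] [Module K V]
  {B : V →ₗ[K] V →ₗ[K] K}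

theorem oom_apply (x y z : V) : oo B (-1) x y z = B y z • x + B x z • y := by
  rw [oo_apply]
  module

theorem oom_swap (x y : V) : oo B (-1) y x = oo B (-1) x y := by
  apply LinearMap.ext
  intro z
  rw [oom_apply, oom_apply, add_comm]

theorem oom_skew (hsy : ∀ x y, B x y = -B y x) (x y : V) : Skew B (oo B (-1) x y) :=
  oo_skew (by norm_num) (fun x y => by rw [hsy]; ring) x y

theorem alt_self (hsy : ∀ x y, B x y = -B y x) (x : V) : B x x = 0 := by
  have h1 : (2 : K) * B x x = 0 := by linear_combination hsy x x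
  exact (mul_eq_zero.1 h1).resolve_left two_ne_zero

section mem

variable [Module.Finite K V] (hsy : ∀ x y, B x y = -B y x)
  (hnd : ∀ x, (∀ y, B x y = 0) → x = 0)

include hsy hnd in
/-- skew operators are sums of the operators `oo x y` -/
theorem skew_memS {a : Submodule K (Module.End K V)} (ha : ∀ x y, oo B (-1) x y ∈ a)
    {Y : Module.End K V} (hY : Skew B Y) : Y ∈ a := by
  classical
  let b := Module.finBasis K V
  have hinj : Function.Injective B := by
    rw [← LinearMap.ker_eq_bot, LinearMap.ker_eq_bot']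
    intro x hx
    exact hnd x fun y => by rw [hx, LinearMap.zero_apply]
  have hsurj : Function.Surjective (B : V →ₗ[K] Module.Dual K V) :=
    (LinearMap.injective_iff_surjective_of_finrank_eq_finrank
      (Subspace.dual_finrank_eq (K := K) (V := V)).symm).1 hinj
  choose b' hb' using fun i => hsurj (b.coord i)
  have h1 : ∀ x, ∑ i, B (b' i) x • b i = x := by
    intro x
    conv_rhs => rw [← b.sum_repr x]
    exact Finset.sum_congr rfl fun i _ => by rw [hb', Basis.coord_apply]
  have h2 : ∀ y, ∑ i, B (b i) y • b' i = -y := by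
    intro y
    rw [← sub_eq_zero]
    refine hnd _ fun z => ?_
    have h3 := congrArg (fun x => B x y) (h1 z)
    simp only [map_sum, map_smul, LinearMap.sum_apply, LinearMap.smul_apply, smul_eq_mul] at h3
    simp only [map_sub, map_sum, map_smul, map_neg, LinearMap.sub_apply, LinearMap.sum_apply,
      LinearMap.smul_apply, LinearMap.neg_apply, smul_eq_mul]
    rw [hsy y z, ← h3, neg_neg, sub_eq_zero]
    exact Finset.sum_congr rfl fun i _ => mul_comm _ _
  have h3 : (2 : K) • Y = ∑ i, oo B (-1) (Y (b i)) (b' i) := by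
    apply LinearMap.ext
    intro x
    rw [LinearMap.sum_apply]
    simp only [oom_apply, Finset.sum_add_distrib, LinearMap.smul_apply]
    have e1 : ∑ i, B (b' i) x • Y (b i) = Y x := by
      conv_rhs => rw [← h1 x]
      rw [map_sum]
      exact Finset.sum_congr rfl fun i _ => by rw [map_smul]
    have e2 : ∑ i, B (Y (b i)) x • b' i = Y x := by
      have h4 := h2 (Y x)
      rw [← neg_neg (Y x), ← h4, ← Finset.sum_neg_distrib]
      refine Finset.sum_congr rfl fun i _ => ?_
      rw [show B (Y (b i)) x = - B (b i) (Y x) from eq_neg_of_add_eq_zero_left (hY _ _), neg_smul]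
    rw [e1, e2, two_smul]
  have h4 : Y = (2 : K)⁻¹ • ∑ i, oo B (-1) (Y (b i)) (b' i) := by
    rw [← h3, smul_smul, inv_mul_cancel₀ two_ne_zero, one_smul]
  rw [h4]
  exact a.smul_mem _ (a.sum_mem fun i _ => ha _ _)

theorem trace_oom (hsy : ∀ x y, B x y = -B y x) (x y : V) :
    LinearMap.trace K V (oo B (-1) x y) = 0 := by
  have h1 : oo B (-1) x y = (B y).smulRight x + (B x).smulRight y := by
    apply LinearMap.ext
    intro z
    rw [oom_apply, LinearMap.add_apply, LinearMap.smulRight_apply, LinearMap.smulRight_apply]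
  rw [h1, map_add, LinearMap.trace_smulRight, LinearMap.trace_smulRight, hsy y x, neg_add_cancel]

include hsy hnd in
/-- the trace of a skew operator is zero -/
theorem trace_skewS {A : Module.End K V} (hA : Skew B A) : LinearMap.trace K V A = 0 := by
  have h1 : A ∈ LinearMap.ker (LinearMap.trace K V) :=
    skew_memS hsy hnd (a := LinearMap.ker (LinearMap.trace K V)) (fun x y => by
      rw [LinearMap.mem_ker]
      exact trace_oom hsy x y) hA
  exact h1

/-- the trace of the product with an operator of rank one -/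
theorem trace_oom_mul (u : V) (Y : Module.End K V) :
    LinearMap.trace K V (oo B (-1) u u * Y) = 2 * B u (Y u) := by
  have h1 : oo B (-1) u u * Y = ((2 : K) • (B u ∘ₗ Y)).smulRight u := by
    apply LinearMap.ext
    intro z
    rw [Module.End.mul_apply, oom_apply, LinearMap.smulRight_apply, LinearMap.smul_apply,
      LinearMap.comp_apply, smul_eq_mul]
    module
  rw [h1, LinearMap.trace_smulRight, LinearMap.smul_apply, LinearMap.comp_apply, smul_eq_mul]

end mem

/-- The integers `3`, `1`, `-1`, `-3`. -/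
def cyS : Finset ℤ := {3, 1, -1, -3}

theorem mem_cyS {a : ℤ} : a ∈ cyS ↔ a = 3 ∨ a = 1 ∨ a = -1 ∨ a = -3 := by
  simp [cyS]

theorem cyS_sub : ∀ p ∈ cyS, ∀ q ∈ cyS, p - q ∈ Finset.Icc (-6 : ℤ) 6 := by decide

/-- The weights `c` are `3` (once), `1`, `-1`, `-3` (once). -/
structure CyB {κ : Type*} (c : κ → ℤ) (kp km : κ) : Prop where
  all : ∀ k, c k ∈ cyS
  p : c kp = 3
  m : c km = -3
  pu : ∀ k, c k = 3 → k = kp
  mu : ∀ k, c k = -3 → k = km

theorem CyB.neg {κ : Type*} {c : κ → ℤ} {kp km : κ} (h : CyB c kp km) :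
    CyB (fun k => -c k) km kp where
  all k := by
    have := h.all k
    rw [mem_cyS] at this ⊢
    omega
  p := by rw [h.m, neg_neg]
  m := by rw [h.p]
  pu k hk := h.mu k (by omega)
  mu k hk := h.pu k (by omega)

section core

variable [FiniteDimensional K V] {κ : Type*} [Fintype κ] {b : Basis κ K V} {c : κ → ℤ}
  {D : End K V} {kp km : κ} {L : Submodule K (End K V)}

theorem form_wt (hD : ∀ k, D (b k) = (c k : K) • b k) (hsk : Skew B D) {k l : κ}
    (h : c k + c l ≠ 0) : B (b k) (b l) = 0 := by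
  have h1 := hsk (b k) (b l)
  rw [hD, hD, map_smul, map_smul, LinearMap.smul_apply, smul_eq_mul, smul_eq_mul, ← add_mul] at h1
  refine (mul_eq_zero.1 h1).resolve_left fun h2 => h ?_
  exact_mod_cast h2

theorem form_pm (hD : ∀ k, D (b k) = (c k : K) • b k) (hc : CyB c kp km) (hsk : Skew B D)
    (hnd : ∀ x, (∀ y, B x y = 0) → x = 0) : B (b kp) (b km) ≠ 0 := by
  intro h0
  apply b.ne_zero kp
  refine hnd _ fun y => ?_
  have h1 : B (b kp) = 0 := b.ext fun l => by
    rw [LinearMap.zero_apply]
    by_cases hl : c l = -3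
    · rw [hc.mu l hl, h0]
    · exact form_wt hD hsk (by rw [hc.p]; omega)
  rw [h1, LinearMap.zero_apply]

/-- the top component -/
theorem top_comp (hD : ∀ k, D (b k) = (c k : K) • b k) (hc : CyB c kp km) (hDL : D ∈ L)
    (hbr : ∀ A ∈ L, ∀ A' ∈ L, A * A' - A' * A ∈ L) (hsk : ∀ A ∈ L, Skew B A)
    (hnd : ∀ x, (∀ y, B x y = 0) → x = 0)
    {X : End K V} (hX : X ∈ L) (hne : B (X (b km)) (b km) ≠ 0) :
    oo B (-1) (b kp) (b kp) ∈ L := by
  have h6 := comp_mem hD (S := cyS) (U := Finset.Icc (-6) 6) hc.all cyS_sub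
    (fun A hA => hbr D hDL A hA) hX 6
  have hpm := form_pm hD hc (hsk D hDL) hnd
  have h1 : comp b c cyS X 6 = Pw b c 3 * X * Pw b c (-3) := by
    simp [comp, cyS]
  rw [h1] at h6
  set μ : K := b.repr (X (b km)) kp with hμ
  have hPx : ∀ x, Pw b c 3 x = b.repr x kp • b kp := by
    classical
    intro x
    conv_lhs => rw [← b.sum_repr x]
    rw [map_sum, Finset.sum_eq_single kp]
    · rw [map_smul, Pw_apply, if_pos hc.p]
    · intro l _ hl
      rw [map_smul, Pw_apply, if_neg fun h => hl (hc.pu l h), smul_zero]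
    · exact fun h => absurd (Finset.mem_univ _) h
  have hX6 : Pw b c 3 * X * Pw b c (-3) = (μ * (2 * B (b kp) (b km))⁻¹) •
      oo B (-1) (b kp) (b kp) := by
    apply b.ext
    intro k
    rw [Module.End.mul_apply, Module.End.mul_apply, LinearMap.smul_apply, oom_apply, Pw_apply]
    by_cases hk : c k = -3
    · rw [if_pos hk, hc.mu k hk, hPx, ← hμ, ← two_smul K, smul_smul, smul_smul]
      congr 1
      have h2 : (2 : K) * B (b kp) (b km) ≠ 0 := mul_ne_zero two_ne_zero hpm
      rw [mul_assoc _ (2 : K)]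
      exact (inv_mul_cancel_right₀ h2 μ).symm
    · have h3 : B (b kp) (b k) = 0 := form_wt hD (hsk D hDL) (by rw [hc.p]; omega)
      rw [if_neg hk, map_zero, map_zero, h3]
      simp
  have hμ0 : μ ≠ 0 := by
    intro h0
    apply hne
    have h2 : B (X (b km)) (b km) = ∑ l, b.repr (X (b km)) l * B (b l) (b km) := by
      conv_lhs => rw [← b.sum_repr (X (b km))]
      rw [map_sum, LinearMap.sum_apply]
      exact Finset.sum_congr rfl fun l _ => by rw [map_smul, LinearMap.smul_apply, smul_eq_mul]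
    rw [h2]
    refine Finset.sum_eq_zero fun l _ => ?_
    by_cases hl : c l = 3
    · rw [hc.pu l hl, ← hμ, h0, zero_mul]
    · rw [form_wt hD (hsk D hDL) (by rw [hc.m]; omega), mul_zero]
  rw [hX6] at h6
  have h7 := L.smul_mem (μ * (2 * B (b kp) (b km))⁻¹)⁻¹ h6
  rwa [smul_smul, inv_mul_cancel₀ (mul_ne_zero hμ0 (inv_ne_zero
    (mul_ne_zero two_ne_zero hpm))), one_smul] at h7

/-- **An element of extreme degree gives everything.** -/
theorem all_of_top (hD : ∀ k, D (b k) = (c k : K) • b k) (hc : CyB c kp km) (hDL : D ∈ L)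
    (hbr : ∀ A ∈ L, ∀ A' ∈ L, A * A' - A' * A ∈ L) (hsk : ∀ A ∈ L, Skew B A)
    (hsy : ∀ x y, B x y = -B y x) (hnd : ∀ x, (∀ y, B x y = 0) → x = 0)
    (hirr : ∀ U : Submodule K V, (∀ X ∈ L, ∀ x ∈ U, X x ∈ U) → U = ⊥ ∨ U = ⊤)
    (htr : ∀ X ∈ L, (∀ Y ∈ L, LinearMap.trace K V (X * Y) = 0) → X = 0)
    {X : End K V} (hX : X ∈ L) (hne : B (X (b km)) (b km) ≠ 0) (x y : V) :
    oo B (-1) x y ∈ L := by
  have hp := top_comp hD hc hDL hbr hsk hnd hX hne
  have hpm := form_pm hD hc (hsk D hDL) hnd
  obtain ⟨Y, hY, hYne⟩ : ∃ Y ∈ L, B (Y (b kp)) (b kp) ≠ 0 := by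
    by_contra hcon
    push Not at hcon
    have h1 := htr _ hp fun Y hY => by
      rw [trace_oom_mul, hsy, hcon Y hY]
      simp
    have h2 := congrArg (fun A : End K V => A (b km)) h1
    rw [oom_apply, ← two_smul K, smul_smul, LinearMap.zero_apply] at h2
    exact (mul_ne_zero two_ne_zero hpm) ((smul_eq_zero.1 h2).resolve_right (b.ne_zero kp))
  have hm : oo B (-1) (b km) (b km) ∈ L := by
    refine top_comp (D := -D) (c := fun k => -c k) (kp := km) (km := kp) (fun k => ?_) hc.neg
      (L.neg_mem hDL) hbr hsk hnd hY hYne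
    rw [LinearMap.neg_apply, hD]
    push_cast
    rw [neg_smul]
  have h1 := hbr _ hp _ hm
  have h2 := br_oo (s := (-1 : K)) (hsk _ hp) (b km) (b km)
  rw [br] at h2
  rw [h2] at h1
  have h3 : oo B (-1) (b kp) (b kp) (b km) = (2 * B (b kp) (b km)) • b kp := by
    rw [oom_apply, ← two_smul K, smul_smul]
  rw [h3, oo_smul_left, oo_smul_right, oom_swap (b kp) (b km), ← two_smul K, smul_smul] at h1
  have h4 : oo B (-1) (b kp) (b km) ∈ L := by
    have h5 := L.smul_mem (2 * (2 * B (b kp) (b km)))⁻¹ h1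
    rwa [smul_smul, inv_mul_cancel₀ (mul_ne_zero two_ne_zero (mul_ne_zero two_ne_zero hpm)),
      one_smul] at h5
  have h5 : oo B (-1) (b kp) ((B (b km) (b kp))⁻¹ • b km) ∈ L := by
    rw [oo_smul_right]
    exact L.smul_mem _ h4
  refine full_of_irr (B := B) (s := (-1 : K)) (p := b kp) (q := (B (b km) (b kp))⁻¹ • b km)
    (fun x y => by rw [hsy]; ring) hsk (fun A hA A' hA' => hbr A hA A' hA') (alt_self hsy _)
    ?_ ?_ h5 (Or.inr rfl) hirr x y
  · rw [map_smul, map_smul, LinearMap.smul_apply, alt_self hsy]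
    simp
  · rw [map_smul, LinearMap.smul_apply, smul_eq_mul, inv_mul_cancel₀]
    rw [hsy]
    exact neg_ne_zero.2 hpm

/-- **The alternative**: the whole Lie algebra, or the data of the classification. -/
theorem core_alt (hD : ∀ k, D (b k) = (c k : K) • b k) (hc : CyB c kp km) (hDL : D ∈ L)
    (hbr : ∀ A ∈ L, ∀ A' ∈ L, A * A' - A' * A ∈ L) (hsk : ∀ A ∈ L, Skew B A)
    (hsy : ∀ x y, B x y = -B y x) (hnd : ∀ x, (∀ y, B x y = 0) → x = 0)
    (hirr : ∀ U : Submodule K V, (∀ X ∈ L, ∀ x ∈ U, X x ∈ U) → U = ⊥ ∨ U = ⊤)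
    (htr : ∀ X ∈ L, (∀ Y ∈ L, LinearMap.trace K V (X * Y) = 0) → X = 0) :
    (∀ x y, oo B (-1) x y ∈ L) ∨ Dt L D (Pw b c) B (b kp) (b km) := by
  by_cases hg : ∀ X ∈ L, B (X (b km)) (b km) = 0
  swap
  · push Not at hg
    obtain ⟨X, hX, hne⟩ := hg
    exact Or.inl (all_of_top hD hc hDL hbr hsk hsy hnd hirr htr hX hne)
  by_cases hg' : ∀ X ∈ L, B (X (b kp)) (b kp) = 0
  swap
  · push Not at hg'
    obtain ⟨X, hX, hne⟩ := hg'
    left
    refine all_of_top (D := -D) (c := fun k => -c k) (kp := km) (km := kp) (b := b)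
      (fun k => ?_) hc.neg (L.neg_mem hDL) hbr hsk hsy hnd hirr htr hX hne
    rw [LinearMap.neg_apply, hD]
    push_cast
    rw [neg_smul]
  right
  exact
    { br := hbr
      DL := hDL
      gr := fun X hX => ⟨comp b c cyS X, fun a => ⟨comp_mem hD hc.all cyS_sub
        (fun A hA => hbr D hDL A hA) hX a, comp_eig hD cyS X a⟩,
        (comp_sum hc.all cyS_sub X).symm⟩
      anti := hsy
      nd := hnd
      sp := fun X hX x y => eq_neg_of_add_eq_zero_left (hsk X hX x y)
      tot := by
        have h1 := Pw_sum (b := b) hc.all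
        rw [cyS, Finset.sum_insert (by decide), Finset.sum_insert (by decide),
          Finset.sum_insert (by decide), Finset.sum_singleton] at h1
        rw [← h1]
        abel
      Pl := fun a => Pw_left hD a
      Pr := fun a => Pw_right hD a
      ep := by rw [hD, hc.p]
      em := by rw [hD, hc.m]
      tp := fun x hx => by
        refine ⟨b.repr x kp, ?_⟩
        classical
        conv_lhs => rw [← b.sum_repr x]
        rw [Finset.sum_eq_single kp]
        · intro l _ hl
          rw [eig_repr hD hx l fun h => hl (hc.pu l (by exact_mod_cast h)), zero_smul]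
        · exact fun h => absurd (Finset.mem_univ _) h
      tm := fun x hx => by
        refine ⟨b.repr x km, ?_⟩
        classical
        conv_lhs => rw [← b.sum_repr x]
        rw [Finset.sum_eq_single km]
        · intro l _ hl
          rw [eig_repr hD hx l fun h => hl (hc.mu l (by exact_mod_cast h)), zero_smul]
        · exact fun h => absurd (Finset.mem_univ _) h
      nz := form_pm hD hc (hsk D hDL) hnd
      irr := hirr
      tr := htr
      trz := fun X hX => trace_skewS hsy hnd (hsk X hX)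
      g3 := hg
      g3' := hg' }

end core

end Run7.h552.CT
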