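import Pool.Agent.Run7.h552.CT.Core
import Pool.Agent.Y127.G.Irr
import Pool.Agent.Y95.ZT.Mat

/-!
# Lie algebras normalized by a strongly irreducible group, with an element of Calabi-Yau type
-/

set_option autoImplicit false
set_option linter.unusedSectionVars false

namespace Run7.h552.CT

open Module Finset Run7.h853.Cy Pool.Agent.Y127.G Pool.Agent.TH125.Gal Pool.Agent.Y95.ZT

section irr

universe u v w

variable {K : Type u} [Field K] [CharZero K] {T : Type v} [AddCommGroup T] [Module K T]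
  [FiniteDimensional K T] {G : Type w} [Group G] {ρ : G →* (T →ₗ[K] T)}
  {L : Submodule K (Module.End K T)} {κ : Type*} [Fintype κ] {b : Basis κ K T} {c : κ → ℤ}
  {D : Module.End K T} {kp km : κ}

theorem Pw_mem (hD : ∀ k, D (b k) = (c k : K) • b k) (hc : CyB c kp km) {W : Submodule K T}
    (hW : ∀ x ∈ W, D x ∈ W) {a : ℤ} (ha : a ∈ cyS) {x : T} (hx : x ∈ W) : Pw b c a x ∈ W := by
  classical
  have hinj : Set.InjOn (fun z : ℤ => (z : K)) (cyS : Set ℤ) := fun x _ y _ h =>
    Int.cast_injective h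
  have h1 : Polynomial.aeval D (Lagrange.basis cyS (fun z : ℤ => (z : K)) a) = Pw b c a := by
    apply b.ext
    intro k
    rw [aeval_eig (hD k), Pw_apply]
    by_cases hk : c k = a
    · rw [if_pos hk, hk, Lagrange.eval_basis_self hinj ha, one_smul]
    · rw [if_neg hk, Lagrange.eval_basis_of_ne (Ne.symm hk) (hc.all k), zero_smul]
  rw [← h1]
  exact aeval_mem hW _ hx

/-- **Irreducibility.** -/
theorem irr_of_SI (hSI : SI ρ)
    (hconj : ∀ γ : G, ∀ A ∈ L, (ρ γ * A * ρ γ⁻¹ : Module.End K T) ∈ L)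
    (hD : ∀ k, D (b k) = (c k : K) • b k) (hc : CyB c kp km) (hDL : D ∈ L)
    (W : Submodule K T) (hW : ∀ X ∈ L, ∀ x ∈ W, X x ∈ W) : W = ⊥ ∨ W = ⊤ := by
  classical
  obtain ⟨M, ⟨hM0, hMs⟩, hMm⟩ := IsArtinian.set_has_minimal
    {M : Submodule K T | M ≠ ⊥ ∧ Stb L M} ⟨⊤, by
      refine ⟨fun h => b.ne_zero kp ?_, fun A _ x _ => Submodule.mem_top⟩
      rw [← Submodule.mem_bot K, ← h]
      exact Submodule.mem_top⟩
  have hM : Mn L M := by
    refine ⟨hM0, hMs, fun W hWM hW => ?_⟩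
    by_contra hcon
    push Not at hcon
    exact hMm W ⟨hcon.1, hW⟩ (lt_of_le_of_ne hWM hcon.2)
  obtain ⟨γ, x, hx, hne⟩ : ∃ γ : G, ∃ x ∈ M, b.repr (ρ γ x) kp ≠ 0 := by
    by_contra hcon
    push Not at hcon
    let U : Submodule K T :=
      { carrier := {y | ∀ γ : G, b.repr (ρ γ y) kp = 0}
        zero_mem' := fun γ => by rw [map_zero, map_zero, Finsupp.zero_apply]
        add_mem' := fun {a b'} ha hb γ => by
          rw [map_add, map_add, Finsupp.add_apply, ha γ, hb γ, add_zero]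
        smul_mem' := fun c a ha γ => by
          rw [map_smul, map_smul, Finsupp.smul_apply, ha γ, smul_zero] }
    have h1 : U = ⊥ ∨ U = ⊤ := by
      refine hSI ⊤ inferInstance U fun g _ x hx γ => ?_
      have h2 := hx (γ * g)
      rwa [map_mul, Module.End.mul_apply] at h2
    have hMU : M ≤ U := fun x hx γ => hcon γ x hx
    rcases h1 with h1 | h1
    · rw [h1] at hMU
      exact hM0 (le_bot_iff.1 hMU)
    · have h2 : b kp ∈ U := by rw [h1]; exact Submodule.mem_top
      have h3 := h2 1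
      rw [map_one, Module.End.one_apply, b.repr_self, Finsupp.single_eq_same] at h3
      exact one_ne_zero h3
  have hM' : Mn L (M.map (ρ γ)) := hM.map hconj γ
  have hxM : ρ γ x ∈ M.map (ρ γ) := ⟨x, hx, rfl⟩
  have hPx : Pw b c 3 (ρ γ x) = b.repr (ρ γ x) kp • b kp := by
    conv_lhs => rw [← b.sum_repr (ρ γ x)]
    rw [map_sum, Finset.sum_eq_single kp]
    · rw [map_smul, Pw_apply, if_pos hc.p]
    · intro l _ hl
      rw [map_smul, Pw_apply, if_neg fun h => hl (hc.pu l h), smul_zero]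
    · exact fun h => absurd (Finset.mem_univ _) h
  have hkp : b kp ∈ M.map (ρ γ) := by
    have h1 := Pw_mem hD hc (fun y hy => hM'.2.1 D hDL y hy) (a := 3) (by decide) hxM
    rw [hPx] at h1
    have h2 := Submodule.smul_mem _ (b.repr (ρ γ x) kp)⁻¹ h1
    rwa [smul_smul, inv_mul_cancel₀ hne, one_smul] at h2
  have htop : M.map (ρ γ) = ⊤ := by
    refine hM'.top hconj hDL (b.ne_zero kp) (c := ((3 : ℤ) : K)) (by rw [hD, hc.p]) ?_ hSI hkp
    intro x hx
    refine ⟨b.repr x kp, ?_⟩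
    conv_lhs => rw [← b.sum_repr x]
    rw [Finset.sum_eq_single kp]
    · intro l _ hl
      rw [eig_repr hD hx l fun h => hl (hc.pu l (by exact_mod_cast h)), zero_smul]
    · exact fun h => absurd (Finset.mem_univ _) h
  rw [htop] at hM'
  exact hM'.2.2 W le_top hW

end irr

section tr

variable {K : Type} [Field K] [CharZero K] {T : Type} [AddCommGroup T] [Module K T]
  [FiniteDimensional K T] {G : Type} [Group G] {ρ : G →* (T →ₗ[K] T)}
  {L : Submodule K (Module.End K T)}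

/-- **The trace form is nondegenerate.** -/
theorem tr_of_SI [Nontrivial T] (e : K ≃+* ℂ) (hSI : SI ρ)
    (hconj : ∀ γ : G, ∀ A ∈ L, (ρ γ * A * ρ γ⁻¹ : Module.End K T) ∈ L)
    (hbr : ∀ A ∈ L, ∀ A' ∈ L, A * A' - A' * A ∈ L)
    (htr0 : ∀ A ∈ L, LinearMap.trace K T A = 0) :
    ∀ X ∈ L, (∀ Y ∈ L, LinearMap.trace K T (X * Y) = 0) → X = 0 := by
  let b := Module.finBasis K T
  have hne : Nonempty (Fin (finrank K T)) := ⟨⟨0, Module.finrank_pos⟩⟩
  let h : Submodule ℂ (Matrix (Fin (finrank K T)) (Fin (finrank K T)) ℂ) :=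
    { carrier := {Y | fm e b Y ∈ L}
      zero_mem' := by
        change fm e b 0 ∈ L
        rw [fm_zero]; exact L.zero_mem
      add_mem' := by
        intro x y hx hy
        change fm e b (x + y) ∈ L
        rw [fm_add]; exact L.add_mem hx hy
      smul_mem' := by
        intro c x hx
        change fm e b (c • x) ∈ L
        rw [fm_smul]; exact L.smul_mem _ hx }
  have hmem : ∀ Y, Y ∈ h ↔ fm e b Y ∈ L := fun Y => Iff.rfl
  have hnd := Pool.Agent.Y95.ZL.lie_nd (g := rm e b ρ) (sirr_of_SI e b hSI) (h := h)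
    (fun γ Y hY => by
      rw [hmem] at hY ⊢
      rw [rm_apply, rm_apply, fm_mul, fm_mul, fm_tm, fm_tm]
      exact hconj γ _ hY)
    (fun Y hY Y' hY' => by
      rw [hmem] at hY hY' ⊢
      rw [fm_sub, fm_mul, fm_mul]
      exact hbr _ hY _ hY')
    (fun Y hY => by
      rw [hmem] at hY
      have h1 := htr0 _ hY
      have h2 := tm_trace e b (fm e b Y)
      rw [tm_fm, h1, map_zero] at h2
      exact h2)
  intro X hX hXY
  have h1 : tm e b X = 0 := by
    refine hnd _ (by rw [hmem, fm_tm]; exact hX) fun Y hY => ?_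
    rw [hmem] at hY
    have h2 := tm_trace e b (X * fm e b Y)
    rw [tm_mul, tm_fm, hXY _ hY, map_zero] at h2
    exact h2
  rw [← fm_tm e b X, h1, fm_zero]

/-- The representation is of tensor type: there are operators `x`, `y` with `x ^ 2 = y ^ 2 = 0` and
`x y + y x = 1` such that the span of `x`, `y` and `x y - y x` is stable under conjugation. -/
def TenRep (ρ : G →* (T →ₗ[K] T)) : Prop :=
  ∃ x y : Module.End K T, x * x = 0 ∧ y * y = 0 ∧ x * y + y * x = 1 ∧
    ∀ g, ∀ a ∈ Submodule.span K {x, y, x * y - y * x},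
      (ρ g * a * ρ g⁻¹ : Module.End K T) ∈ Submodule.span K {x, y, x * y - y * x}

theorem conj_mul (γ : G) (A A' : Module.End K T) :
    ρ γ * (A * A') * ρ γ⁻¹ = (ρ γ * A * ρ γ⁻¹) * (ρ γ * A' * ρ γ⁻¹) := by
  have h1 : ρ γ⁻¹ * ρ γ = 1 := by rw [← map_mul, inv_mul_cancel, map_one]
  calc ρ γ * (A * A') * ρ γ⁻¹ = ρ γ * A * 1 * A' * ρ γ⁻¹ := by noncomm_ring
    _ = _ := by rw [← h1]; noncomm_ring

theorem conj_inv (γ : G) (A : Module.End K T) : ρ γ⁻¹ * (ρ γ * A * ρ γ⁻¹) * ρ γ = A := by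
  have h1 : ρ γ⁻¹ * ρ γ = 1 := by rw [← map_mul, inv_mul_cancel, map_one]
  calc ρ γ⁻¹ * (ρ γ * A * ρ γ⁻¹) * ρ γ = (ρ γ⁻¹ * ρ γ) * A * (ρ γ⁻¹ * ρ γ) := by noncomm_ring
    _ = A := by rw [h1, one_mul, mul_one]

theorem conj_inv' (γ : G) (A : Module.End K T) : ρ γ * (ρ γ⁻¹ * A * ρ γ) * ρ γ⁻¹ = A := by
  have h1 : ρ γ * ρ γ⁻¹ = 1 := by rw [← map_mul, mul_inv_cancel, map_one]
  calc ρ γ * (ρ γ⁻¹ * A * ρ γ) * ρ γ⁻¹ = (ρ γ * ρ γ⁻¹) * A * (ρ γ * ρ γ⁻¹) := by noncomm_ring
    _ = A := by rw [h1, one_mul, mul_one]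

/-- conjugation as a linear equivalence -/
def conjE (ρ : G →* (T →ₗ[K] T)) (γ : G) : Module.End K T ≃ₗ[K] Module.End K T where
  toFun A := ρ γ * A * ρ γ⁻¹
  invFun A := ρ γ⁻¹ * A * ρ γ
  left_inv A := conj_inv γ A
  right_inv A := conj_inv' γ A
  map_add' A A' := by rw [mul_add, add_mul]
  map_smul' c A := by rw [mul_smul_comm, smul_mul_assoc]; rfl

theorem conjE_apply (γ : G) (A : Module.End K T) : conjE ρ γ A = ρ γ * A * ρ γ⁻¹ := rfl

variable {B : T →ₗ[K] T →ₗ[K] K} {κ : Type} [Fintype κ] {b : Basis κ K T} {c : κ → ℤ}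
  {D : Module.End K T} {kp km : κ}

/-- Spaces of dimension two. -/
theorem dt_zero {P : ℤ → Module.End K T} (dt : Dt L D P B (b kp) (b km)) (hc : CyB c kp km)
    (hdim : finrank K T = 2) : False := by
  classical
  have hcard : Fintype.card κ = 2 := by rw [← finrank_eq_card_basis b, hdim]
  have hne : kp ≠ km := by
    rintro h
    have h1 := hc.p
    have h2 := hc.m
    rw [h] at h1
    omega
  have hall : ∀ k, k = kp ∨ k = km := by
    intro k
    by_contra h
    push Not at h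
    have h1 := Finset.card_le_univ ({k, kp, km} : Finset κ)
    rw [hcard, Finset.card_insert_of_notMem (by simp [h.1, h.2]),
      Finset.card_insert_of_notMem (by simp [hne]), Finset.card_singleton] at h1
    omega
  have hmm : B (b km) (b km) = 0 := alt_self dt.anti _
  have hst : ∀ X ∈ L, X (b km) ∈ Submodule.span K {b km} := by
    intro X hX
    have h1 : X (b km) = b.repr (X (b km)) kp • b kp + b.repr (X (b km)) km • b km := by
      conv_lhs => rw [← b.sum_repr (X (b km))]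
      rw [show (Finset.univ : Finset κ) = {kp, km} by
        ext k
        simpa using hall k, Finset.sum_pair hne]
    have h2 := dt.g3 X hX
    rw [h1, map_add, LinearMap.add_apply, map_smul, map_smul, LinearMap.smul_apply,
      LinearMap.smul_apply, hmm, smul_zero, add_zero, smul_eq_mul] at h2
    rw [h1, (mul_eq_zero.1 h2).resolve_right dt.nz, zero_smul, zero_add]
    exact Submodule.smul_mem _ _ (Submodule.mem_span_singleton_self _)
  rcases dt.irr (Submodule.span K {b km}) (by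
    intro X hX x hx
    obtain ⟨a, rfl⟩ := Submodule.mem_span_singleton.1 hx
    rw [map_smul]
    exact Submodule.smul_mem _ _ (hst X hX)) with h | h
  · exact b.ne_zero km (Submodule.span_singleton_eq_bot.1 h)
  · have h1 := finrank_span_singleton (K := K) (b.ne_zero km)
    rw [h, finrank_top, hdim] at h1
    omega

/-- **The whole Lie algebra.** -/
theorem full_cy (e : K ≃+* ℂ) {q : ℕ} (hSI : SI ρ) (hsy : ∀ x y, B x y = -B y x)
    (hnd : ∀ x, (∀ y, B x y = 0) → x = 0)
    (hD : ∀ k, D (b k) = (c k : K) • b k) (hc : CyB c kp km)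
    (hdim : finrank K T = 2 * q + 2) (hq : q ∉ ({1, 3, 6, 9, 15, 27} : Finset ℕ))
    (hT : q = 0 ∨ ¬TenRep ρ) (hDL : D ∈ L) (hbr : ∀ A ∈ L, ∀ A' ∈ L, A * A' - A' * A ∈ L)
    (hsk : ∀ A ∈ L, Skew B A)
    (hconj : ∀ γ : G, ∀ A ∈ L, (ρ γ * A * ρ γ⁻¹ : Module.End K T) ∈ L) (x y : T) :
    oo B (-1) x y ∈ L := by
  have : IsAlgClosed K := IsAlgClosed.of_ringEquiv ℂ K e.symm
  have hnt : Nontrivial T := ⟨⟨b kp, 0, b.ne_zero kp⟩⟩
  have hirr := irr_of_SI hSI hconj hD hc hDL
  have htr := tr_of_SI e hSI hconj hbr fun A hA => trace_skewS hsy hnd (hsk A hA)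
  rcases core_alt hD hc hDL hbr hsk hsy hnd hirr htr with h | dt
  · exact h x y
  exfalso
  rcases Nat.eq_zero_or_pos q with hq0 | hq0
  · exact dt_zero dt hc (by rw [hdim, hq0])
  replace hT := hT.resolve_left hq0.ne'
  have hdim' := dt.dims.2.1
  have hqf : finrank K (ES D 1) = q := by omega
  obtain ⟨z, hzL, hz⟩ := dt.exists_z
  obtain ⟨hz0, hzc⟩ := dt.z_prop hzL hz
  by_cases hs : ∃ s : K, z = s • D
  · obtain ⟨s, hs⟩ := hs
    apply hq
    have h2 := dt.list (s := s) fun Y hY => by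
      rw [← hz Y hY, hs, smul_mul_assoc, map_smul, smul_eq_mul]
    rwa [hqf] at h2
  push Not at hs
  obtain ⟨K1, R1, Km, Rm, hsp⟩ := dt.exists_split hz0 hzc hs
  obtain ⟨x0, y0, r0, hsl⟩ := dt.exists_sl hsp
  -- the ideal is stable
  have hst : ∀ γ : G, ∀ a ∈ idl x0 y0, ρ γ * a * ρ γ⁻¹ ∈ idl x0 y0 := by
    intro γ
    have hS : finrank K ((idl x0 y0).comap (conjE ρ γ).toLinearMap) = 3 := by
      rw [← hsl.finrank_idl dt]
      have h1 := LinearEquiv.finrank_eq ((conjE ρ γ).submoduleMap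
        ((idl x0 y0).comap (conjE ρ γ).toLinearMap))
      rw [h1, Submodule.map_comap_eq_of_surjective (conjE ρ γ).surjective]
    have hu := dt.uniq hsl (S := (idl x0 y0).comap (conjE ρ γ).toLinearMap) ?_ ?_ hS ?_
    · rcases hu with h1 | h1
      · intro a ha
        exact h1 ha
      · exfalso
        rw [hqf] at h1
        rw [h1] at hq
        exact hq (by decide)
    · intro X hX
      have h1 := hsl.le dt (show ρ γ * X * ρ γ⁻¹ ∈ idl x0 y0 from hX)
      have h2 := hconj γ⁻¹ _ h1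
      rw [inv_inv, conj_inv] at h2
      exact h2
    · intro X hX a ha
      have ha' : ρ γ * a * ρ γ⁻¹ ∈ idl x0 y0 := ha
      change ρ γ * (X * a - a * X) * ρ γ⁻¹ ∈ idl x0 y0
      rw [mul_sub, sub_mul, conj_mul, conj_mul]
      exact hsl.ideal dt _ (hconj γ X hX) _ ha'
    · intro a ha
      obtain ⟨c', hc'⟩ := hsl.sq (show ρ γ * a * ρ γ⁻¹ ∈ idl x0 y0 from ha)
      refine ⟨c', ?_⟩
      rw [← conj_mul] at hc'
      have h1 := congrArg (fun A => ρ γ⁻¹ * A * ρ γ) hc'
      simp only [conj_inv] at h1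
      rw [h1, mul_smul_comm, smul_mul_assoc, mul_one, ← map_mul, inv_mul_cancel, map_one]
  apply hT
  have hr := hsl.ne
  have hspan : Submodule.span K {r0⁻¹ • x0, y0, r0⁻¹ • x0 * y0 - y0 * (r0⁻¹ • x0)} =
      idl x0 y0 := by
    have e1 : r0⁻¹ • x0 * y0 - y0 * (r0⁻¹ • x0) = r0⁻¹ • (x0 * y0 - y0 * x0) := by
      rw [smul_mul_assoc, mul_smul_comm, smul_sub]
    rw [e1]
    apply le_antisymm
    · rw [Submodule.span_le]
      rintro _ (rfl | rfl | rfl)
      · exact Submodule.smul_mem _ _ x_mem_idl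
      · exact y_mem_idl
      · exact Submodule.smul_mem _ _ h_mem_idl
    · unfold idl
      rw [Submodule.span_le]
      intro a ha
      rcases ha with ha | ha | ha
      · have h1 := Submodule.smul_mem (Submodule.span K
          {r0⁻¹ • x0, y0, r0⁻¹ • (x0 * y0 - y0 * x0)}) r0
          (Submodule.subset_span (Or.inl rfl))
        rw [smul_smul, mul_inv_cancel₀ hr, one_smul] at h1
        rw [ha]
        exact h1
      · exact Submodule.subset_span (Or.inr (Or.inl ha))
      · have h1 := Submodule.smul_mem (Submodule.span K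
          {r0⁻¹ • x0, y0, r0⁻¹ • (x0 * y0 - y0 * x0)}) r0
          (Submodule.subset_span (Or.inr (Or.inr rfl)))
        rw [smul_smul, mul_inv_cancel₀ hr, one_smul] at h1
        rw [ha]
        exact h1
  refine ⟨r0⁻¹ • x0, y0, ?_, hsl.yy, ?_, ?_⟩
  · rw [smul_mul_smul_comm, hsl.xx, smul_zero]
  · rw [smul_mul_assoc, mul_smul_comm, ← smul_add, hsl.xy, smul_smul, inv_mul_cancel₀ hr,
      one_smul]
  · rw [hspan]
    exact hst

end tr

end Run7.h552.CT
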