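import Pool.Agent.Run7.h552.CT.Psi
import Pool.Agent.Run7.h552.CT.FullCy
import Pool.Agent.Y95.ZT.Gap

/-!
# Members of symplectic type: Goursat
-/

set_option autoImplicit false
set_option linter.unusedSectionVars false

namespace Run7.h552.CT

open Module Finset Function Pool.Agent.TH125.Gal Pool.Agent.Y127.G Pool.Agent.Y127.C
  Pool.Agent.Y95.ZT

variable {K : Type} [Field K] [CharZero K] {Γ : Type} [Group Γ] {ι : Type}
  {N : ι → FRep K Γ} {t t' : ι}

/-- A member of symplectic type, with the whole symplectic Lie algebra. -/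
structure FulS (N : ι → FRep K Γ) (t : ι) extends Frm N t where
  sy : ∀ x y, B x y = -B y x
  nd : ∀ x, (∀ y, B x y = 0) → x = 0
  si : SI (N t).ρ
  p : (N t).V
  q : (N t).V
  pq : B p q ≠ 0
  all : ∀ x y, ∃ D ∈ GG N, ∃ a : K, D t = oo B (-1) x y + a • 1

theorem oo_pq_ne {V : Type} [AddCommGroup V] [Module K V] {B : V →ₗ[K] V →ₗ[K] K}
    (hsy : ∀ x y, B x y = -B y x) {p q : V} (hpq : B p q ≠ 0) : oo B (-1) p q ≠ 0 := by
  intro h
  have h2 := congrArg (fun A : Module.End K V => B p (A q)) h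
  simp only [oom_apply, alt_self hsy, zero_smul, zero_add, map_smul,
    smul_eq_mul, LinearMap.zero_apply, map_zero] at h2
  exact hpq (mul_self_eq_zero.1 h2)

theorem br_pq {V : Type} [AddCommGroup V] [Module K V] {B : V →ₗ[K] V →ₗ[K] K}
    (hsy : ∀ x y, B x y = -B y x) {p q : V} (hpq : B p q ≠ 0) :
    br (oo B (-1) p p) (oo B (-1) q q) ≠ 0 := by
  rw [br_oom (oom_skew hsy p p), oom_self, oo_smul_left, smul_smul]
  exact smul_ne_zero (mul_ne_zero two_ne_zero (mul_ne_zero two_ne_zero hpq)) (oo_pq_ne hsy hpq)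

section ful

variable (o : FulS N t) (o' : FulS N t')

/-- **A nonzero ideal is everything.** -/
theorem FulS.ideal {M : Submodule K (∀ i, (N i).V →ₗ[K] (N i).V)} (hM1 : M ≤ GG1 N)
    (hMi : ∀ D ∈ GG N, ∀ D' ∈ M, brk D D' ∈ M) (hne : ∃ D ∈ M, D t ≠ 0) (x y : (N t).V) :
    ∃ D ∈ M, D t = oo o.B (-1) x y := by
  obtain ⟨D0, hD0, hne⟩ := hne
  refine simple_sp (a := res M t) o.sy o.nd ?_ ?_ (A := D0 t) ⟨D0, hD0, rfl⟩ hne x y
  · rintro _ ⟨D, hD, rfl⟩
    exact o.skew (hM1 hD)
  · rintro u v _ ⟨D, hD, rfl⟩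
    obtain ⟨D', hD', a, ha⟩ := o.all u v
    refine ⟨brk D' D, hMi D' hD' D hD, ?_⟩
    change brk D' D t = _
    rw [brk_eq_br, ha, br_scalar_left]
    rfl

theorem FulS.full (x y : (N t).V) : ∃ D ∈ GG1 N, D t = oo o.B (-1) x y := by
  refine o.ideal le_rfl (fun D hD D' hD' => brk_mem1 hD (GG1_le hD')) ?_ x y
  obtain ⟨D, hD, a, ha⟩ := o.all o.p o.p
  obtain ⟨D', hD', a', ha'⟩ := o.all o.q o.q
  refine ⟨brk D D', brk_mem1 hD hD', ?_⟩
  rw [brk_eq_br, ha, ha', br_scalar]
  exact br_pq o.sy o.pq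

theorem FulS.good_all {a : ι} (h : Good N t a) (x y : (N t).V) :
    ∃ D ∈ GG1 N, D a = 0 ∧ D t = oo o.B (-1) x y := by
  obtain ⟨D0, hD0, ha, ht⟩ := h
  obtain ⟨D, hD, hDt⟩ := o.ideal (M := kil N {a}) (fun D hD => hD.1)
    (fun D hD D' hD' => kil_brk hD hD')
    ⟨D0, ⟨hD0, fun b hb => by rw [Set.mem_singleton_iff.1 hb]; exact ha⟩, ht⟩ x y
  exact ⟨D, hD.1, hD.2 a rfl, hDt⟩

/-- **Goursat.** -/
theorem FulS.good_finset (S : Finset ι) (h : ∀ a ∈ S, Good N t a) (x y : (N t).V) :
    ∃ D ∈ GG1 N, (∀ a ∈ S, D a = 0) ∧ D t = oo o.B (-1) x y := by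
  classical
  induction S using Finset.induction_on generalizing x y with
  | empty =>
    obtain ⟨D, hD, hDt⟩ := o.full x y
    exact ⟨D, hD, fun a ha => absurd ha (Finset.notMem_empty a), hDt⟩
  | insert b S hb ih =>
    have h1 : ∀ x y, ∃ D ∈ GG1 N, (∀ a ∈ S, D a = 0) ∧ D t = oo o.B (-1) x y := fun x y =>
      ih (fun a ha => h a (Finset.mem_insert_of_mem ha)) x y
    have h2 : ∀ x y, ∃ D ∈ GG1 N, D b = 0 ∧ D t = oo o.B (-1) x y := fun x y =>
      o.good_all (h b (Finset.mem_insert_self b S)) x y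
    obtain ⟨D, hD, hDS, hDt⟩ := h1 o.p o.p
    obtain ⟨D', hD', hDb, hDt'⟩ := h2 o.q o.q
    have hm : brk D D' ∈ kil N ((insert b S : Finset ι) : Set ι) := by
      refine ⟨brk_mem1 (GG1_le hD) (GG1_le hD'), fun a ha => ?_⟩
      rcases Finset.mem_insert.1 (Finset.mem_coe.1 ha) with rfl | ha
      · rw [brk_eq_br, hDb, br_zero_right]
      · rw [brk_eq_br, hDS a ha, br_zero_left]
    have hne : brk D D' t ≠ 0 := by
      rw [brk_eq_br, hDt, hDt']
      exact br_pq o.sy o.pq
    obtain ⟨D'', hD'', hDt''⟩ := o.ideal (M := kil N ((insert b S : Finset ι) : Set ι))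
      (fun D hD => hD.1) (fun D hD D' hD' => kil_brk hD hD') ⟨brk D D', hm, hne⟩ x y
    exact ⟨D'', hD''.1, fun a ha => hD''.2 a (Finset.mem_coe.2 ha), hDt''⟩

/-- the dimension criterion -/
theorem FulS.good_of_lt {a : ι} (W : Submodule K (Module.End K (N a).V))
    (hW : ∀ D ∈ GG1 N, D a ∈ W) (hdim : finrank K W < finrank K (SkewS o.B)) : Good N t a := by
  by_contra hcon
  have h0 : ∀ D ∈ GG1 N, D a = 0 → D t = 0 := by
    intro D hD ha
    by_contra ht
    exact hcon ⟨D, hD, ha, ht⟩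
  let f : GG1 N →ₗ[K] Module.End K (N a).V :=
    (LinearMap.proj a : (∀ i, (N i).V →ₗ[K] (N i).V) →ₗ[K] _) ∘ₗ (GG1 N).subtype
  let g : GG1 N →ₗ[K] Module.End K (N t).V :=
    (LinearMap.proj t : (∀ i, (N i).V →ₗ[K] (N i).V) →ₗ[K] _) ∘ₗ (GG1 N).subtype
  obtain ⟨Φ, hΦ⟩ := exists_factor f g fun x hx => h0 x.1 x.2 hx
  have hΦ' : ∀ D ∈ GG1 N, Φ (D a) = D t := fun D hD => hΦ ⟨D, hD⟩
  have hle : SkewS o.B ≤ W.map Φ := by
    intro X hX
    obtain ⟨D, hD, hDt⟩ := skew_memS (a := res (GG1 N) t) o.sy o.nd (fun x y => o.full x y) hX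
    exact ⟨D a, hW D hD, by rw [hΦ' D hD]; exact hDt⟩
  have h2 := Submodule.finrank_mono hle
  have h3 := Submodule.finrank_map_le Φ W
  omega

end ful

section lin

variable {T : Type} [AddCommGroup T] [Module K T] [Module.Finite K T] {κ : Type} [Fintype κ]
  {b : Basis κ K T} {B : T →ₗ[K] T →ₗ[K] K}

theorem oom_rel (hnd : ∀ x, (∀ y, B x y = 0) → x = 0) {c : κ × κ → K}
    (h : ∑ x, c x • oo B (-1) (b x.1) (b x.2) = 0) (k m : κ) : c (k, m) + c (m, k) = 0 := by
  classical
  have h1 : ∑ l, (c (k, l) + c (l, k)) • b l = 0 := by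
    refine hnd _ fun x => ?_
    have h2 := congrArg (fun A : Module.End K T => b.repr (A x) k) h
    simp only [LinearMap.sum_apply, LinearMap.smul_apply, oom_apply, map_sum, map_smul,
      map_add, Finsupp.finsetSum_apply, Finsupp.smul_apply, Finsupp.add_apply, b.repr_self,
      smul_eq_mul, LinearMap.zero_apply, map_zero, Finsupp.zero_apply] at h2
    rw [Fintype.sum_prod_type] at h2
    simp only [mul_add, Finset.sum_add_distrib] at h2
    have e1 : ∑ i, ∑ j, c (i, j) * (B (b j) x * (Finsupp.single i (1 : K)) k) =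
        ∑ j, c (k, j) * B (b j) x := by
      rw [Finset.sum_eq_single k]
      · refine Finset.sum_congr rfl fun j _ => ?_
        rw [Finsupp.single_eq_same, mul_one]
      · intro i _ hi
        refine Finset.sum_eq_zero fun j _ => ?_
        rw [Finsupp.single_eq_of_ne hi.symm, mul_zero, mul_zero]
      · intro h'
        exact absurd (Finset.mem_univ _) h'
    have e2 : ∑ i, ∑ j, c (i, j) * (B (b i) x * (Finsupp.single j (1 : K)) k) =
        ∑ i, c (i, k) * B (b i) x := by
      refine Finset.sum_congr rfl fun i _ => ?_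
      rw [Finset.sum_eq_single k]
      · rw [Finsupp.single_eq_same, mul_one]
      · intro j _ hj
        rw [Finsupp.single_eq_of_ne hj.symm, mul_zero, mul_zero]
      · intro h'
        exact absurd (Finset.mem_univ _) h'
    rw [e1, e2, ← Finset.sum_add_distrib] at h2
    rw [map_sum, LinearMap.sum_apply, ← h2]
    refine Finset.sum_congr rfl fun l _ => ?_
    rw [map_smul, LinearMap.smul_apply, smul_eq_mul, add_mul]
  exact Fintype.linearIndependent_iff.1 b.linearIndependent _ h1 m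

theorem li_oom (hnd : ∀ x, (∀ y, B x y = 0) → x = 0) {ν : Type} [Fintype ν] {f : ν → κ × κ}
    (hf : Function.Injective f) (hs : ∀ x y, f y = (f x).swap → y = x) :
    LinearIndependent K fun x => oo B (-1) (b (f x).1) (b (f x).2) := by
  classical
  rw [Fintype.linearIndependent_iff]
  intro g hg x
  have h1 : ∑ z, (∑ y with f y = z, g y) • oo B (-1) (b z.1) (b z.2) = 0 := by
    rw [← hg]
    simp only [Finset.sum_smul]
    rw [Finset.sum_comm' (s' := fun y => {f y}) (t' := univ) (by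
      intro z y
      simp only [Finset.mem_univ, Finset.mem_filter, true_and, Finset.mem_singleton, and_true]
      exact eq_comm)]
    refine Finset.sum_congr rfl fun y _ => ?_
    rw [Finset.sum_singleton]
  have h2 := oom_rel hnd h1 (f x).1 (f x).2
  simp only [Prod.mk.eta] at h2
  have e1 : (univ.filter fun y => f y = f x) = {x} := by
    ext y
    simp only [Finset.mem_filter, Finset.mem_univ, true_and, Finset.mem_singleton]
    exact ⟨fun h => hf h, fun h => by rw [h]⟩
  rw [e1, Finset.sum_singleton] at h2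
  by_cases hx : f x = (f x).swap
  · have e2 : (univ.filter fun y => f y = ((f x).2, (f x).1)) = {x} := by
      ext y
      simp only [Finset.mem_filter, Finset.mem_univ, true_and, Finset.mem_singleton]
      exact ⟨fun h => hs x y h, fun h => by rw [h]; exact hx⟩
    rw [e2, Finset.sum_singleton, ← two_mul] at h2
    exact (mul_eq_zero.1 h2).resolve_left two_ne_zero
  · have e2 : (univ.filter fun y => f y = ((f x).2, (f x).1)) = ∅ := by
      rw [Finset.filter_eq_empty_iff]
      intro y _ h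
      have h3 := hs x y h
      rw [h3] at h
      exact hx h
    rw [e2, Finset.sum_empty, add_zero] at h2
    exact h2

theorem le_finrank_skewS (hsy : ∀ x y, B x y = -B y x) (hnd : ∀ x, (∀ y, B x y = 0) → x = 0) :
    ∑ i ∈ range (finrank K T + 1), i ≤ finrank K (SkewS B) := by
  classical
  let b := Module.finBasis K T
  rw [← card_le]
  have h1 := li_oom (b := b) hnd
    (f := fun x : {x : Fin (finrank K T) × Fin (finrank K T) // x.1 ≤ x.2} => x.1)
    Subtype.val_injective (fun x y h => by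
      have hy : y.1 = x.1.swap := h
      have e1 : y.1.1 = x.1.2 := congrArg Prod.fst hy
      have e2 : y.1.2 = x.1.1 := congrArg Prod.snd hy
      have h3 := y.2
      rw [e1, e2] at h3
      have h4 := le_antisymm h3 x.2
      apply Subtype.ext
      apply Prod.ext
      · rw [e1, h4]
      · rw [e2, h4])
  have h2 : LinearIndependent K (fun x : {x : Fin (finrank K T) × Fin (finrank K T) //
      x.1 ≤ x.2} => (⟨oo B (-1) (b x.1.1) (b x.1.2), oom_skew hsy _ _⟩ : SkewS B)) := by
    refine LinearIndependent.of_comp (SkewS B).subtype ?_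
    exact h1
  exact h2.fintype_card_le_finrank

end lin

section crit

variable (o : FulS N t) (o' : FulS N t')

include o in
/-- **The criterion for symmetric forms.** -/
theorem FulS.good_of_sym {a : ι} (f : Frm N a) (hsy : ∀ x y, f.B x y = f.B y x)
    (hnd : ∀ x, (∀ y, f.B x y = 0) → x = 0) (hdim : finrank K (N a).V ≤ finrank K (N t).V) :
    Good N t a := by
  refine o.good_of_lt (SkewS f.B) (fun D hD => f.skew hD) ?_
  have h1 := finrank_skew_le_sym hsy hnd
  have h2 := le_finrank_skewS o.sy o.nd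
  have hp : 0 < finrank K (N t).V := by
    refine Module.finrank_pos_iff_exists_ne_zero.2 ⟨o.p, fun h => o.pq ?_⟩
    rw [h, map_zero, LinearMap.zero_apply]
  rcases Nat.eq_zero_or_pos (finrank K (N a).V) with h4 | h4
  · rw [h4, Finset.range_zero, Finset.sum_empty] at h1
    have h5 := sum_lt (m := 1) (n := finrank K (N t).V + 1) (by omega) (by norm_num)
    omega
  · have h5 := sum_lt (m := finrank K (N a).V) (n := finrank K (N t).V + 1) (by omega) h4
    omega

include o in
/-- **The criterion for alternating forms.** -/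
theorem FulS.good_of_alt {a : ι} (f : Frm N a) (hsy : ∀ x y, f.B x y = -f.B y x)
    (hnd : ∀ x, (∀ y, f.B x y = 0) → x = 0) (hdim : finrank K (N a).V < finrank K (N t).V) :
    Good N t a := by
  refine o.good_of_lt (SkewS f.B) (fun D hD => f.skew hD) ?_
  have h1 := finrank_skew_le_alt hsy hnd
  have h2 := le_finrank_skewS o.sy o.nd
  have h5 := sum_lt (m := finrank K (N a).V + 1) (n := finrank K (N t).V + 1) (by omega)
    (Nat.succ_pos _)
  omega

include o in
/-- **The criterion without forms.** -/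
theorem FulS.good_of_sq {a : ι}
    (hdim : finrank K (N a).V ^ 2 < ∑ i ∈ range (finrank K (N t).V + 1), i) : Good N t a := by
  refine o.good_of_lt ⊤ (fun D hD => Submodule.mem_top) ?_
  have h2 := le_finrank_skewS o.sy o.nd
  rw [finrank_top, Module.finrank_linearMap, ← sq]
  omega

include o o' in
/-- symmetry -/
theorem FulS.good_symm (h : Good N t' t) : Good N t t' := by
  by_contra hng
  have h0 : ∀ D ∈ GG1 N, D t' = 0 → D t = 0 := by
    intro D hD ha
    by_contra ht
    exact hng ⟨D, hD, ha, ht⟩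
  have h2 : ∀ X : Module.End K (N t').V, Skew o'.B X → ∃ D ∈ kil N {t}, D t' = X := fun X hX =>
    skew_memS (a := res (kil N {t}) t') o'.sy o'.nd (fun x y => by
      obtain ⟨D, hD, hDt, hDt'⟩ := o'.good_all h x y
      exact ⟨D, ⟨hD, fun a ha => by rw [Set.mem_singleton_iff.1 ha]; exact hDt⟩, hDt'⟩) hX
  obtain ⟨D1, hD1, hD1t⟩ := o.full o.p o.q
  obtain ⟨D2, hD2, hD2t⟩ := h2 _ (o'.skew hD1)
  have h3 := h0 (D1 - D2) ((GG1 N).sub_mem hD1 hD2.1) (by rw [Pi.sub_apply, hD2t, sub_self])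
  rw [Pi.sub_apply, hD2.2 t rfl, sub_zero, hD1t] at h3
  exact oo_pq_ne o.sy o.pq h3

/-- the criterion with eigenvectors of the adjoint operator -/
theorem FulS.good_of_eig {a : ι} {J : ∀ i, (N i).V →ₗ[K] (N i).V} (hJG : J ∈ GG N)
    {κ : Type} [Fintype κ] (b : Basis κ K (N a).V) (s : κ → K) (hb : ∀ k, J a (b k) = s k • b k)
    (c : K) [DecidablePred fun x : κ × κ => s x.1 = s x.2 + c] {ν : Type} [Fintype ν]
    {v : ν → Module.End K (N t).V} (hv : LinearIndependent K v) (hsk : ∀ x, Skew o.B (v x))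
    (hve : ∀ x, br (J t) (v x) = c • v x)
    (hdim : Fintype.card {x : κ × κ // s x.1 = s x.2 + c} < Fintype.card ν) : Good N t a := by
  by_contra hcon
  have h0 : ∀ D ∈ GG1 N, D a = 0 → D t = 0 := by
    intro D hD ha
    by_contra ht
    exact hcon ⟨D, hD, ha, ht⟩
  let f : GG1 N →ₗ[K] Module.End K (N a).V :=
    (LinearMap.proj a : (∀ i, (N i).V →ₗ[K] (N i).V) →ₗ[K] _) ∘ₗ (GG1 N).subtype
  let g : GG1 N →ₗ[K] Module.End K (N t).V :=
    (LinearMap.proj t : (∀ i, (N i).V →ₗ[K] (N i).V) →ₗ[K] _) ∘ₗ (GG1 N).subtype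
  obtain ⟨Φ, hΦ⟩ := exists_factor f g fun x hx => h0 x.1 x.2 hx
  have hΦ' : ∀ D ∈ GG1 N, Φ (D a) = D t := fun D hD => hΦ ⟨D, hD⟩
  obtain ⟨P, hP, hPe⟩ := exists_proj hb c
  have hle : Submodule.span K (Set.range v) ≤
      (LinearMap.ker (adL (J a) - c • 1)).map Φ := by
    rw [Submodule.span_le]
    rintro _ ⟨x, rfl⟩
    obtain ⟨D, hD, hDt⟩ := skew_memS (a := res (GG1 N) t) o.sy o.nd (fun x y => o.full x y)
      (hsk x)
    change D t = v x at hDt
    obtain ⟨D', hD', hD'e⟩ := poly_AD hJG P D hD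
    refine ⟨(P.eval c)⁻¹ • D' a, Submodule.smul_mem _ _ ?_, ?_⟩
    · rw [LinearMap.mem_ker, LinearMap.sub_apply, sub_eq_zero, hD'e]
      exact hPe _
    · rw [map_smul, hΦ' D' hD', hD'e, hDt, aeval_adL_eigen (hve x), smul_smul,
        inv_mul_cancel₀ hP, one_smul]
  have h1 := finrank_span_eq_card hv
  have h2 := Submodule.finrank_mono hle
  have h3 := Submodule.finrank_map_le Φ (LinearMap.ker (adL (J a) - c • 1))
  have h4 := finrank_gap hb c
  omega

end crit

end Run7.h552.CT
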