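import Pool.Agent.Run7.h552.CT.Core

/-!
# Symplectic Lie algebras: simplicity and isomorphisms
-/

set_option autoImplicit false
set_option linter.unusedSectionVars false

namespace Run7.h552.CT

open Module Finset Pool.Agent.Y127.G Pool.Agent.TH125.Gal

universe u v v'

variable {K : Type u} [Field K] [CharZero K] {V : Type v} [AddCommGroup V] [Module K V]
  {B : V →ₗ[K] V →ₗ[K] K}

theorem oom_self (x z : V) : oo B (-1) x x z = (2 * B x z) • x := by
  rw [oom_apply, ← add_smul, two_mul]

theorem br_oom {A : Module.End K V} (hA : Skew B A) (x : V) :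
    br A (oo B (-1) x x) = (2 : K) • oo B (-1) (A x) x := by
  rw [br_oo hA, oom_swap (A x) x, two_smul]

theorem oom_inj (hsy : ∀ x y, B x y = -B y x) (hnd : ∀ x, (∀ y, B x y = 0) → x = 0) {v x : V}
    (hv : v ≠ 0) (h : oo B (-1) x v = 0) : x = 0 := by
  obtain ⟨z, hz⟩ : ∃ z, B v z ≠ 0 := by
    by_contra hcon
    push Not at hcon
    exact hv (hnd v hcon)
  have h1 : ∀ z, B v z • x + B x z • v = 0 := fun z => by
    rw [← oom_apply, h, LinearMap.zero_apply]
  have h2 : x = (-(B x z) * (B v z)⁻¹) • v := by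
    have h3 := congrArg (fun y => (B v z)⁻¹ • y) (h1 z)
    simp only [smul_add, smul_smul, smul_zero, inv_mul_cancel₀ hz, one_smul] at h3
    exact (eq_neg_of_add_eq_zero_left h3).trans (by module)
  set a := -(B x z) * (B v z)⁻¹ with ha
  have h3 := h1 z
  rw [h2, map_smul, LinearMap.smul_apply, smul_smul, smul_eq_mul, mul_comm a, ← add_smul] at h3
  have h4 : B v z * a + B v z * a = 0 := (smul_eq_zero.1 h3).resolve_right hv
  have h5 : (2 * B v z) * a = 0 := by linear_combination h4
  rw [h2, (mul_eq_zero.1 h5).resolve_left (mul_ne_zero two_ne_zero hz), zero_smul]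

/-- **The symplectic Lie algebra is simple.** -/
theorem simple_sp (hsy : ∀ x y, B x y = -B y x) (hnd : ∀ x, (∀ y, B x y = 0) → x = 0)
    {a : Submodule K (Module.End K V)} (hask : ∀ A ∈ a, Skew B A)
    (hid : ∀ u v, ∀ A ∈ a, br (oo B (-1) u v) A ∈ a) {A : Module.End K V} (hA : A ∈ a)
    (hA0 : A ≠ 0) (x y : V) : oo B (-1) x y ∈ a := by
  have hsw : ∀ X Y : Module.End K V, br X Y = -br Y X := fun X Y => by
    rw [br, br, neg_sub]
  have hid' : ∀ u v, ∀ A ∈ a, br A (oo B (-1) u v) ∈ a := fun u v A hA => by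
    rw [hsw]
    exact a.neg_mem (hid u v A hA)
  have half : ∀ {X : Module.End K V}, (2 : K) • X ∈ a → X ∈ a := by
    intro X hX
    have h1 := a.smul_mem (2 : K)⁻¹ hX
    rwa [smul_smul, inv_mul_cancel₀ two_ne_zero, one_smul] at h1
  obtain ⟨q, hq⟩ : ∃ q, B (A q) q ≠ 0 := by
    by_contra hcon
    push Not at hcon
    apply hA0
    apply LinearMap.ext
    intro z
    rw [LinearMap.zero_apply]
    refine hnd _ fun w => ?_
    have h1 := hcon (z + w)
    simp only [map_add, LinearMap.add_apply, hcon z, hcon w] at h1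
    have h2 := hask A hA z w
    rw [hsy z (A w)] at h2
    have h3 : (2 : K) * B (A z) w = 0 := by linear_combination h1 + h2
    exact (mul_eq_zero.1 h3).resolve_left two_ne_zero
  set c := B (A q) q with hc
  have h1 : oo B (-1) (A q) q ∈ a := by
    apply half
    rw [← br_oom (hask A hA)]
    exact hid' _ _ A hA
  set p := c⁻¹ • A q with hp
  have hpq : B p q = 1 := by
    rw [hp, map_smul, LinearMap.smul_apply, smul_eq_mul, ← hc, inv_mul_cancel₀ hq]
  have hH : oo B (-1) p q ∈ a := by
    rw [hp, oo_smul_left]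
    exact a.smul_mem _ h1
  have hqq : oo B (-1) q q ∈ a := by
    apply half
    have h2 := hid' q q _ hH
    rw [br_oom (oom_skew hsy p q), oom_apply, alt_self hsy q, hpq, zero_smul, one_smul,
      zero_add] at h2
    exact h2
  have huq : ∀ u, oo B (-1) u q ∈ a := by
    intro u
    have h2 := hid u p _ hqq
    rw [br_oom (oom_skew hsy u p), oom_apply, hpq, one_smul, oo_add_left, oo_smul_left] at h2
    have h3 := half h2
    have h4 := a.sub_mem h3 (a.smul_mem (B u q) hH)
    rwa [add_sub_cancel_right] at h4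
  have hall : ∀ z y, oo B (-1) z (y + B y q • p) ∈ a := by
    intro z y
    have h2 := hid y p _ (huq z)
    rw [br_oo (oom_skew hsy y p)] at h2
    have h3 := a.sub_mem h2 (huq (oo B (-1) y p z))
    rw [add_sub_cancel_left, oom_apply y p q, hpq, one_smul] at h3
    exact h3
  have hzp : ∀ z, oo B (-1) z p ∈ a := by
    intro z
    apply half
    have h2 := hall z p
    rw [hpq, one_smul, ← two_smul K, oo_smul_right] at h2
    exact h2
  have h2 := hall x y
  rw [oo_add_right, oo_smul_right] at h2
  have h3 := a.sub_mem h2 (a.smul_mem (B y q) (hzp x))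
  rwa [add_sub_cancel_right] at h3

section psi

variable {V' : Type v'} [AddCommGroup V'] [Module K V'] {B' : V' →ₗ[K] V' →ₗ[K] K}

/-- **Isomorphisms of symplectic Lie algebras** which map an operator of rank one to an operator of
rank one are given by linear maps. -/
theorem exists_psiS (hsy : ∀ x y, B x y = -B y x) (hnd : ∀ x, (∀ y, B x y = 0) → x = 0)
    (hsy' : ∀ x y, B' x y = -B' y x) (hnd' : ∀ x, (∀ y, B' x y = 0) → x = 0)
    {Φ : Module.End K V' →ₗ[K] Module.End K V} (hΦs : ∀ X, Skew B' X → Skew B (Φ X))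
    (hΦb : ∀ X Y, Skew B' X → Skew B' Y → Φ (br X Y) = br (Φ X) (Φ Y))
    {v : V} {v' : V'} {c : K} (hc : c ≠ 0) (hv : v ≠ 0) (hv' : v' ≠ 0)
    (hΦv : Φ (oo B' (-1) v' v') = c • oo B (-1) v v) :
    ∃ ψ : V' →ₗ[K] V, ψ ≠ 0 ∧ (∀ X, Skew B' X → ∀ x, ψ (X x) = Φ X (ψ x)) ∧
      ∀ f : V' →ₗ[K] V, (∀ X, Skew B' X → ∀ x, f (X x) = Φ X (f x)) → ∃ a : K, f = a • ψ := by
  obtain ⟨y, hy⟩ : ∃ y, B' v' y = 1 := by
    obtain ⟨y, hy⟩ : ∃ y, B' v' y ≠ 0 := by
      by_contra hcon
      push Not at hcon
      exact hv' (hnd' v' hcon)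
    exact ⟨(B' v' y)⁻¹ • y, by rw [map_smul, smul_eq_mul, inv_mul_cancel₀ hy]⟩
  have hy' : B' y v' = -1 := by rw [hsy', hy]
  -- the operators `X u` with `X u v' = u`
  let Xo : V' →ₗ[K] Module.End K V' :=
    { toFun := fun u => -oo B' (-1) u y - (2⁻¹ * B' u v') • oo B' (-1) y y
      map_add' := fun u w => by
        rw [oo_add_left, map_add, LinearMap.add_apply]
        module
      map_smul' := fun a u => by
        rw [oo_smul_left, map_smul, LinearMap.smul_apply, RingHom.id_apply, smul_eq_mul]
        module }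
  have hXo : ∀ u, Xo u = -oo B' (-1) u y - (2⁻¹ * B' u v') • oo B' (-1) y y := fun u => rfl
  have hXs : ∀ u, Skew B' (Xo u) := by
    intro u x z
    have h1 := oom_skew hsy' u y x z
    have h2 := oom_skew hsy' y y x z
    rw [hXo]
    simp only [LinearMap.sub_apply, LinearMap.neg_apply, LinearMap.smul_apply, map_sub, map_neg,
      map_smul, smul_eq_mul]
    linear_combination -h1 - (2⁻¹ * B' u v') * h2
  have hXv : ∀ u, Xo u v' = u := by
    intro u
    rw [hXo, LinearMap.sub_apply, LinearMap.neg_apply, LinearMap.smul_apply, oom_apply, oom_apply,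
      hy', ← add_smul, smul_smul]
    have h2 : 2⁻¹ * B' u v' * (-1 + -1) = -B' u v' := by
      have : (2 : K) ≠ 0 := two_ne_zero
      field_simp
      ring
    rw [h2]
    module
  let ψ : V' →ₗ[K] V :=
    { toFun := fun u => Φ (Xo u) v
      map_add' := fun u w => by rw [map_add, map_add, LinearMap.add_apply]
      map_smul' := fun a u => by rw [map_smul, map_smul, LinearMap.smul_apply, RingHom.id_apply] }
  have hψ : ∀ u, ψ u = Φ (Xo u) v := fun u => rfl
  have inj : ∀ {x : V}, oo B (-1) x v = 0 → x = 0 := fun h => oom_inj hsy hnd hv h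
  have inj2 : ∀ {x x' : V}, oo B (-1) x v = oo B (-1) x' v → x = x' := fun {x x'} h =>
    sub_eq_zero.1 (inj (by rw [oo_sub_left, h, sub_self]))
  -- brackets with the operator of rank one
  have hbr2 : ∀ X, Skew B' X → Φ (oo B' (-1) (X v') v') = c • oo B (-1) (Φ X v) v := by
    intro X hX
    have h1 := hΦb X _ hX (oom_skew hsy' v' v')
    rw [br_oom hX, hΦv, br_smul, br_oom (hΦs X hX), map_smul, smul_smul, mul_comm c,
      ← smul_smul] at h1
    exact smul_right_injective _ (two_ne_zero (α := K)) h1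
  have hA : ∀ X, Skew B' X → X v' = 0 → Φ X v = 0 := by
    intro X hX h0
    have h1 := hbr2 X hX
    rw [h0, oo_zero_left, map_zero] at h1
    exact inj ((smul_eq_zero.1 h1.symm).resolve_left hc)
  have hBc : ∀ X, Skew B' X → ψ (X v') = Φ X v := by
    intro X hX
    have h1 := hA (Xo (X v') - X) (by
      intro x z
      have h1 := hXs (X v') x z
      have h2 := hX x z
      simp only [LinearMap.sub_apply, map_sub]
      linear_combination h1 - h2) (by rw [LinearMap.sub_apply, hXv, sub_self])
    rw [map_sub, LinearMap.sub_apply, sub_eq_zero] at h1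
    exact h1
  have hC : ∀ u, Φ (oo B' (-1) u v') = c • oo B (-1) (ψ u) v := by
    intro u
    have h1 := hbr2 (Xo u) (hXs u)
    rwa [hXv] at h1
  have hψv : ψ v' = v := by
    have h1 := hC v'
    rw [hΦv] at h1
    exact (inj2 (smul_right_injective _ hc h1)).symm
  have hDd : ∀ x, c * B (ψ x) v = B' x v' := by
    intro x
    have h1 := hBc (oo B' (-1) x v') (oom_skew hsy' x v')
    rw [hC, LinearMap.smul_apply, oom_apply, oom_apply, alt_self hsy', alt_self hsy, zero_smul,
      zero_smul, zero_add, zero_add, map_smul, hψv, smul_smul] at h1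
    exact (smul_left_injective K hv h1).symm
  -- the defect
  let f : V' → V' → V := fun u w => Φ (Xo w) (ψ u) - ψ (Xo w u)
  have hf : ∀ u w, f u w = Φ (Xo w) (ψ u) - ψ (Xo w u) := fun u w => rfl
  have hdef : ∀ X, Skew B' X → ∀ u, c • oo B (-1) (Φ X (ψ u) - ψ (X u)) v =
      Φ (oo B' (-1) u (X v')) - c • oo B (-1) (ψ u) (ψ (X v')) := by
    intro X hX u
    have h1 := hΦb X _ hX (oom_skew hsy' u v')
    rw [br_oo hX, map_add, hC, hC, br_smul, br_oo (hΦs X hX), smul_add, ← hBc X hX] at h1
    rw [oo_sub_left, smul_sub]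
    rw [← sub_eq_zero] at h1 ⊢
    rw [← neg_eq_zero, ← h1]
    abel
  have hfd : ∀ u w, c • oo B (-1) (f u w) v =
      Φ (oo B' (-1) u w) - c • oo B (-1) (ψ u) (ψ w) := by
    intro u w
    have h1 := hdef (Xo w) (hXs w) u
    rwa [hXv] at h1
  have hfX : ∀ X, Skew B' X → ∀ u, Φ X (ψ u) - ψ (X u) = f u (X v') := by
    intro X hX u
    have h1 := hdef X hX u
    rw [← hfd] at h1
    exact inj2 (smul_right_injective _ hc h1)
  have hfs : ∀ u w, f u w = f w u := by
    intro u w
    have h1 := hfd u w
    have h2 := hfd w u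
    rw [oom_swap u w, oom_swap (ψ u) (ψ w), ← h1] at h2
    exact (inj2 (smul_right_injective _ hc h2)).symm
  have hfv : ∀ u, f u v' = 0 := by
    intro u
    have h1 := hfd u v'
    rw [hC, hψv, sub_self] at h1
    exact inj ((smul_eq_zero.1 h1).resolve_left hc)
  have hfv' : ∀ u, f v' u = 0 := fun u => by rw [hfs, hfv]
  have hfa : ∀ u w w', f u (w + w') = f u w + f u w' := by
    intro u w w'
    rw [hf, hf, hf, map_add, map_add, LinearMap.add_apply, LinearMap.add_apply, map_add]
    abel
  have hfm : ∀ (a : K) u w, f u (a • w) = a • f u w := by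
    intro a u w
    rw [hf, hf, map_smul, map_smul, LinearMap.smul_apply, LinearMap.smul_apply, map_smul, smul_sub]
  have hfa' : ∀ u w w', f (w + w') u = f w u + f w' u := fun u w w' => by
    rw [hfs, hfa, hfs w, hfs w']
  have hfm' : ∀ (a : K) u w, f (a • w) u = a • f w u := fun a u w => by
    rw [hfs, hfm, hfs w]
  -- the relation
  have key : ∀ x u w, (c * B v (f u w)) • ψ x + (c * B (ψ x) (f u w)) • v + B' x v' • f u w =
      B' v' u • f x w + B' v' w • f u x := by
    intro x u w
    have hX := oom_skew hsy' x v'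
    have hXv' : oo B' (-1) x v' v' = B' x v' • v' := by
      rw [oom_apply, alt_self hsy', zero_smul, zero_add]
    have hE : ∀ z, Φ (oo B' (-1) x v') (ψ z) = ψ (oo B' (-1) x v' z) := by
      intro z
      have h1 := hfX _ hX z
      rw [hXv', hfm, hfv, smul_zero, sub_eq_zero] at h1
      exact h1
    have h1 := hΦb _ _ hX (oom_skew hsy' u w)
    rw [br_oo hX, map_add] at h1
    have h2 : br (Φ (oo B' (-1) x v')) (c • oo B (-1) (f u w) v) =
        c • oo B (-1) (f (oo B' (-1) x v' u) w) v + c • oo B (-1) (f u (oo B' (-1) x v' w)) v := by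
      rw [hfd, hfd, hfd, br_sub, ← h1, br_smul, br_oo (hΦs _ hX), hE, hE, smul_add]
      abel
    rw [br_smul, br_oo (hΦs _ hX), ← smul_add, ← oo_add_left] at h2
    have h3 := smul_right_injective _ hc h2
    have h4 : Φ (oo B' (-1) x v') v = B' x v' • v := by
      rw [← hBc _ hX, hXv', map_smul, hψv]
    rw [h4, oo_smul_right, ← oo_smul_left, ← oo_add_left] at h3
    have h5 := inj2 h3
    rw [hC, LinearMap.smul_apply, oom_apply, oom_apply, oom_apply, hfa', hfa, hfm', hfm', hfm, hfm,
      hfv, hfv'] at h5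
    rw [smul_add, smul_smul, smul_smul, smul_zero, add_zero, smul_zero, add_zero] at h5
    exact h5
  have hβ : ∀ x w, B v (f x w) = 0 := by
    have h1 : ∀ x u w, B' v' u * B v (f x w) + B' v' w * B v (f u x) = 0 := by
      intro x u w
      have h2 := congrArg (B v) (key x u w)
      simp only [map_add, map_smul, smul_eq_mul, alt_self hsy v, mul_zero, add_zero] at h2
      have h3 : c * B v (ψ x) = -B' x v' := by rw [hsy, mul_neg, hDd]
      linear_combination -h2 + B v (f u w) * h3
    have h2 : ∀ x, B v (f x y) = 0 := by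
      intro x
      have h3 := h1 x y y
      rw [hy, hfs y x] at h3
      have h4 : (2 : K) * B v (f x y) = 0 := by linear_combination h3
      exact (mul_eq_zero.1 h4).resolve_left two_ne_zero
    intro x w
    have h3 := h1 x y w
    rw [hfs y x, h2 x, hy] at h3
    linear_combination h3
  have key2 : ∀ x u w, (c * B (ψ x) (f u w)) • v + B' x v' • f u w =
      B' v' u • f x w + B' v' w • f u x := by
    intro x u w
    have h1 := key x u w
    rwa [hβ, mul_zero, zero_smul, zero_add] at h1
  have hyy : f y y = 0 := by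
    have h1 := key2 y y y
    rw [hy, hy'] at h1
    set μ := c * B (ψ y) (f y y) with hμ
    have h2 : (3 : K) • f y y = μ • v := by
      have h3 : μ • v = (1 : K) • f y y + (1 : K) • f y y - (-1 : K) • f y y := by
        rw [← h1]
        abel
      rw [h3]
      module
    have h3 : (3 : K) * μ = -μ := by
      have h4 := congrArg (fun z => c * B (ψ y) z) h2
      simp only [map_smul, smul_eq_mul] at h4
      have h5 := hDd y
      rw [hy'] at h5
      have h6 : (3 : K) * (c * B (ψ y) (f y y)) = μ * (c * B (ψ y) v) := by linear_combination h4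
      rw [← hμ, h5] at h6
      linear_combination h6
    have h4 : μ = 0 := by
      have h5 : (4 : K) * μ = 0 := by linear_combination h3
      exact (mul_eq_zero.1 h5).resolve_left (by norm_num)
    rw [h4, zero_smul] at h2
    exact (smul_eq_zero.1 h2).resolve_left (by norm_num)
  have hxy : ∀ x, f x y = 0 := by
    intro x
    have h1 := key2 x y y
    rw [hyy, map_zero, mul_zero, zero_smul, smul_zero, add_zero, hy, one_smul, one_smul,
      hfs y x, ← two_smul K] at h1
    exact (smul_eq_zero.1 h1.symm).resolve_left two_ne_zero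
  have hf0 : ∀ x w, f x w = 0 := by
    intro x w
    have h1 := key2 x y w
    rw [hfs y w, hxy, map_zero, mul_zero, zero_smul, smul_zero, add_zero, hy, one_smul,
      hfs y x, hxy, smul_zero, add_zero] at h1
    exact h1.symm
  have hequ : ∀ X, Skew B' X → ∀ x, ψ (X x) = Φ X (ψ x) := by
    intro X hX x
    have h1 := hfX X hX x
    rw [hf0, sub_eq_zero] at h1
    exact h1.symm
  refine ⟨ψ, fun h0 => hv ?_, hequ, fun g hg => ?_⟩
  · rw [← hψv, h0, LinearMap.zero_apply]
  · have h1 := hg _ (oom_skew hsy' v' v') y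
    rw [oom_self, hy, mul_one, map_smul, hΦv, LinearMap.smul_apply, oom_self, smul_smul] at h1
    have h2 : g v' = (c * B v (g y)) • v := by
      have h3 := congrArg (fun z => (2 : K)⁻¹ • z) h1
      simp only [smul_smul, inv_mul_cancel₀ (two_ne_zero (α := K)), one_smul] at h3
      rw [h3]
      congr 1
      have : (2 : K) ≠ 0 := two_ne_zero
      field_simp
    refine ⟨c * B v (g y), ?_⟩
    apply LinearMap.ext
    intro u
    have h3 := hg (Xo u) (hXs u) v'
    rw [hXv, h2, map_smul] at h3
    rw [h3, LinearMap.smul_apply, hψ]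

end psi

end Run7.h552.CT
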