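import Pool.Agent.Run7.h552.CT.App
import Pool.Agent.Y95.ZT.Twr

/-!
# Towers over families of varieties of Calabi-Yau type of weight three
-/

open CategoryTheory AlgebraicGeometry Finset Function

set_option autoImplicit false
set_option linter.unusedSectionVars false

universe u

namespace Run7.h552.CT

open Pool.Agent Pool.Agent.H914 Pool.Agent.H914.VarClass Pool.Agent.H914.VarClass.Obj
  Pool.Agent.H914.WeilCohomology Pool.Agent.H281R3.HT Pool.Agent.W552 Pool.Agent.TH125.Gal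
  Pool.Agent.Y127 Pool.Agent.Y127.G Pool.Agent.Y95.ZT

section Alg

variable {K : Type} [Field K] {A : Type} [Ring A] [Algebra K A] [FiniteDimensional K A]
  {Γ : Type} [Group Γ]

/-- The space `U` is small with respect to `q`. -/
def SmallCyOn (D : WeightOp K Γ) (q : ℕ) (ρ : Γ →* (A ≃ₐ[K] A)) (U : Submodule K A) : Prop :=
  (∃ s, WeightsOn D ρ U s ∧
    (wgaps s 3 = 0 ∨ wgaps s 2 < q ∨ wgaps s 1 < (∑ i ∈ range (q + 1), i) + q)) ∨
  (FormOn ρ U 1 ∧ Module.finrank K U ≤ 2 * q + 2) ∨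
  (FormOn ρ U (-1) ∧ Module.finrank K U < 2 * q + 2) ∨
  (Module.finrank K U ^ 2 < ∑ i ∈ range (2 * q + 3), i)

/-- The algebra is generated by elements on which subgroups of finite index act by powers of `χ`
and by finitely many stable subspaces which are small with respect to all `q i`. -/
def GenSmallCy (D : WeightOp K Γ) (χ : Γ →* Kˣ) {ι : Type} (q : ι → ℕ) (ρ : Γ →* (A ≃ₐ[K] A)) :
    Prop :=
  ∃ (m : ℕ) (U : Fin m → Submodule K A), (∀ a i, SmallCyOn D (q i) ρ (U a)) ∧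
    (∀ a g, ∀ x ∈ U a, ρ g x ∈ U a) ∧
      Algebra.adjoin K (SemiInv χ ρ ∪ ⋃ a, (U a : Set A)) = ⊤

/-- The space `T` is of tensor type. -/
def TensorOn (ρ : Γ →* (A ≃ₐ[K] A)) (T : Submodule K A) : Prop :=
  ∃ x y : Module.End K T, x * x = 0 ∧ y * y = 0 ∧ x * y + y * x = 1 ∧
    ∀ g, ∀ a ∈ Submodule.span K {x, y, x * y - y * x},
      ∃ a' ∈ Submodule.span K {x, y, x * y - y * x},
        ∀ t t' : T, ρ g t = t' → ρ g (a t) = a' t'

theorem small_subRep {ρ : Γ →* (A ≃ₐ[K] A)} {U : Submodule K A}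
    (hU : ∀ g, ∀ x ∈ U, ρ g x ∈ U) {D : WeightOp K Γ} {q : ℕ}
    (h : SmallCyOn D q ρ U) : SmallCy D q (Y95.ZT.subRep ρ U hU) := by
  have key : ∀ s : K, FormOn ρ U s → HasForm s (Y95.ZT.subRep ρ U hU) := by
    rintro s ⟨μ, B, h3, h4, h5⟩
    refine ⟨μ, B.domRestrict₁₂ U U, fun (x y : U) => h3 x x.2 y y.2, fun (x : U) hx => ?_,
      fun g (x y : U) => h5 g x x.2 y y.2⟩
    exact Subtype.ext (h4 x x.2 fun y hy => hx ⟨y, hy⟩)
  rcases h with ⟨s, ⟨_, h1⟩, h2⟩ | ⟨h1, h2⟩ | ⟨h1, h2⟩ | h1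
  · exact Or.inl ⟨s, h1, h2⟩
  · exact Or.inr (Or.inl ⟨key _ h1, h2⟩)
  · exact Or.inr (Or.inr (Or.inl ⟨key _ h1, h2⟩))
  · exact Or.inr (Or.inr (Or.inr h1))

end Alg

variable {k : Type u} [Field k] {𝒱 : VarClass k} {ops : CycleOps 𝒱}
  {W : WeilCohomology.{u, 0} ops} {Γ : Type} [Group Γ]

/-- Varieties of Calabi-Yau type of weight three. -/
structure CyType (D : WeightOp W.K Γ) (χ : Γ →* W.Kˣ) (q : ℕ) (X : GVar W Γ) : Prop where
  galois : GaloisType χ X
  homEqNum : HomEqNum W X.X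
  odd : Odd X.X.dim
  middle : transcendental W X.X ≤ W.gr X.X X.X.dim
  irreducible : IrredAct X.act (transcendental W X.X)
  weights : ∃ h : ℤ, WeightsOn D X.act (transcendental W X.X) (cyW q h)
  num : q ∉ ({1, 3, 6, 9, 15, 27} : Finset ℕ)
  ten : q = 0 ∨ ¬TensorOn X.act (transcendental W X.X)

/-- Families of varieties of Calabi-Yau type of weight three. -/
structure CyFamily (D : WeightOp W.K Γ) (χ : Γ →* W.Kˣ) {ι : Type} (q : ι → ℕ)
    (X : ι → GVar W Γ) (Z : GVar W Γ) : Prop where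
  cy : ∀ i, CyType D χ (q i) (X i)
  notIso : ∀ i j, i ≠ j → ¬TwistIso (X i).act (transcendental W (X i).X) (X j).act
    (transcendental W (X j).X)
  base : GenSmallCy D χ q Z.act

variable {D : WeightOp W.K Γ} {χ : Γ →* W.Kˣ}
  {ι : Type} {X : ι → GVar W Γ} {Z : GVar W Γ} {S L : Set ι} {Y : GVar W Γ}
  {q : ι → ℕ}

theorem tr_sk {X : GVar W Γ} (hmid : transcendental W X.X ≤ W.gr X.X X.X.dim)
    (ho : Odd X.X.dim) (x y : transcendental W X.X) :
    rform W X.X (transcendental W X.X) x y = -rform W X.X (transcendental W X.X) y x := by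
  rw [rform_apply, rform_apply, trans_symm hmid x.2 y.2, ho.neg_one_pow, neg_one_mul]

/-- the condition on tensor products -/
theorem not_tenRep {X : GVar W Γ} {χ : Γ →* W.Kˣ} (hG : GaloisType χ X)
    (h : ¬TensorOn X.act (transcendental W X.X)) : ¬TenRep (trRep hG).ρ := by
  rintro ⟨x, y, hx, hy, hxy, hs⟩
  refine h ⟨x, y, hx, hy, hxy, fun g a ha => ⟨_, hs g a ha, fun t t' htt => ?_⟩⟩
  have h1 : (trRep hG).ρ g t = t' := Subtype.ext htt
  have h2 : (trRep hG).ρ g⁻¹ t' = t := by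
    rw [← h1]
    exact FRep.inv_left (trRep hG) g t
  have h3 : (trRep hG).ρ g (a ((trRep hG).ρ g⁻¹ t')) = (trRep hG).ρ g (a t) := by rw [h2]
  exact (congrArg Subtype.val h3).symm

/-- varieties of Calabi-Yau type give representations of Calabi-Yau type -/
theorem exists_cyRep {q : ℕ} {X : GVar W Γ} (hX : CyType D χ q X) :
    ∃ M : CyRep D q (trRep hX.galois), M.B = rform W X.X (transcendental W X.X) := by
  obtain ⟨h, hU, hw⟩ := hX.weights
  exact ⟨{ B := rform W X.X (transcendental W X.X)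
           μ := χ ^ X.X.dim
           eqv := fun g x y => tr_eqv hX.galois g x y
           sy := fun x y => tr_sk hX.middle hX.odd x y
           nd := trans_nondeg hX.homEqNum
           si := SI_rhoT (P := (⟨X.X, 0⟩ : Polarized 𝒱)) (isGalois hX.galois) hX.irreducible
           h := h
           weights := hw
           num := hX.num
           ten := hX.ten.imp_right (not_tenRep hX.galois) }, rfl⟩

/-- the base in the form used in the proofs -/
theorem CyFamily.baseRep (hX : CyFamily D χ q X Z) :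
    ∃ (m : ℕ) (M : Fin m → FRep W.K Γ) (f : ∀ a, (M a).V →ₗ[W.K] W.H Z.X),
      (∀ a i, SmallCy D (q i) (M a)) ∧
      (∀ a g x, f a ((M a).ρ g x) = Z.act g (f a x)) ∧
      Algebra.adjoin W.K (SemiInv χ Z.act ∪ ⋃ a, Set.range (f a)) = ⊤ := by
  obtain ⟨m, U, h1, h2, h3⟩ := hX.base
  refine ⟨m, fun a => Y95.ZT.subRep Z.act (U a) (h2 a), fun a => (U a).subtype,
    fun a i => small_subRep (h2 a) (h1 a i), fun a g x => rfl, ?_⟩
  rw [← h3]
  congr 2
  refine Set.iUnion_congr fun a => ?_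
  change Set.range ((U a).subtype) = _
  rw [Submodule.coe_subtype, Subtype.range_coe_subtype]
  rfl

theorem CyType.pos {q : ℕ} {X : GVar W Γ} (hX : CyType D χ q X) :
    2 ≤ Module.finrank W.K (transcendental W X.X) := by
  obtain ⟨M, -⟩ := exists_cyRep hX
  have h1 : Module.finrank W.K (transcendental W X.X) = 2 * q + 2 := M.dim
  omega

/-- the generation of the cohomology of towers -/
theorem genBy_twr {m : ℕ} {M : Fin m → FRep W.K Γ} (hG : ∀ i, GaloisType χ (X i))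
    (hD : ∀ i, HomEqNum W (X i).X)
    {f : ∀ a, (M a).V →ₗ[W.K] W.H Z.X} (hf : ∀ a g x, f a ((M a).ρ g x) = Z.act g (f a x))
    (hgen : Algebra.adjoin W.K (SemiInv χ Z.act ∪ ⋃ a, Set.range (f a)) = ⊤)
    (hY : LTower X Z S L Y) : GenBy (fun j => trRep (hG j)) M χ Y.act S := by
  induction hY with
  | base =>
    unfold GenBy
    rw [eq_top_iff, ← hgen]
    refine Algebra.adjoin_mono ?_
    rintro x (hx | hx)
    · exact Or.inl hx
    · obtain ⟨a, y, rfl⟩ := Set.mem_iUnion.1 hx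
      exact Or.inr (Or.inr ⟨a, f a, hf a, y, rfl⟩)
  | small i n _ _ _ hP ih =>
    obtain ⟨υ, h1, h2⟩ := hP
    exact genBy_step hG (hD i) ih h1 h2
  | large i n _ _ hP ih =>
    obtain ⟨υ, h1, h2⟩ := hP
    exact genBy_step hG (hD i) ih h1 h2

variable [IsAlgClosed W.K]

/-- **The Lie algebra kills the coordinates.** -/
theorem CyFamily.inv_step (e : W.K ≃+* ℂ) (hX : CyFamily D χ q X Z) (hY : LTower X Z S L Y)
    {i : ι} (hi : i ∉ S) {n : ℕ}
    {υ : Γ →* (W.H ((power ops (X i).X n).prod Y.X) ≃ₐ[W.K] W.H ((power ops (X i).X n).prod Y.X))}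
    (hP : IsPowAct W (⟨(X i).X, 0⟩ : Polarized 𝒱) n Y.X (X i).act Y.act υ)
    {s : SB W (X i).X}
    {b : Module.Basis (Fin (n + 1) → Fin s.NC ⊕ Fin s.NT) W.K
      (W.H (nest ops n fun _ => (⟨(X i).X, 0⟩ : Polarized 𝒱)).X)}
    (hb : ∀ r, b r = mono (prj ops n fun _ => (⟨(X i).X, 0⟩ : Polarized 𝒱)) fun p => s.e (r p))
    {z : W.H ((power ops (X i).X n).prod Y.X)} {j : ℕ} {Δ : Subgroup Γ} (hΔ : Δ.FiniteIndex)
    (hz : ∀ g ∈ Δ, υ g z = (χ g : W.K) ^ j • z) (c₀ : Fin (n + 1) → Option (Fin s.NC)) :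
    TH125.Nod.Inv (fun _ : Fin s.NT => ()) (gram (P := (⟨(X i).X, 0⟩ : Polarized 𝒱)) s)
      (fun _ => -1) (fun r : Free c₀ → Fin s.NT =>
        hS (P := (⟨(X i).X, 0⟩ : Polarized 𝒱)) s b z c₀ fun l => s.uT (r l)) := by
  obtain ⟨m, M, f, hM, hf, hgen⟩ := hX.baseRep
  have hgal := fun i => (hX.cy i).galois
  have hgb := genBy_twr hgal (fun i => (hX.cy i).homEqNum) hf hgen hY
  have hG : IsGalois W χ (X i).X (X i).act := isGalois (hgal i)
  choose R hR using fun i => exists_cyRep (hX.cy i)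
  have h1 := hS_eqv (P := (⟨(X i).X, 0⟩ : Polarized 𝒱)) hb hG hP hΔ hz c₀
  have h2 := fun x y => kill_of_cy (A := W.H Y.X) (T := fun j => trRep (hgal j)) (M := M) e
    (χ := χ) (τ := Y.act) (LTower.finite hY) hgb (Dw := D) (q := q)
    (fun j => R j) (fun i j hij => not_isoUpTo (hX.notIso i j hij)) hi
    (fun a => hM a i) (lamb (P := (⟨(X i).X, 0⟩ : Polarized 𝒱)) χ s c₀ j)
    (h := hS (P := (⟨(X i).X, 0⟩ : Polarized 𝒱)) s b z c₀) h1 x y
  rw [hR i] at h2
  exact inv_of_kill (s := (-1 : W.K)) (B := rform W (X i).X (transcendental W (X i).X))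
    (fun u w => h2 u w) s.uT

/-- **The classes on towers.** -/
theorem tc_tower (e : W.K ≃+* ℂ) (hX : CyFamily D χ q X Z)
    (hZ : ∀ Δ : Subgroup Γ, Δ.FiniteIndex → TC W χ Δ Z.X Z.act) (hY : LTower X Z S L Y) :
    ∀ Δ : Subgroup Γ, Δ.FiniteIndex → TC W χ Δ Y.X Y.act := by
  classical
  have key : ∀ {S L : Set ι} {Y Y' : GVar W Γ} (i : ι) (n : ℕ) (hT : LTower X Z S L Y)
      (hi : i ∉ S) (hP : Pool.Agent.TH125.Gal.IsPowProd (X i) n Y Y')
      (ih : ∀ Δ : Subgroup Γ, Δ.FiniteIndex → TC W χ Δ Y.X Y.act),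
      ∀ Δ : Subgroup Γ, Δ.FiniteIndex → TC W χ Δ Y'.X Y'.act := by
    intro S L Y Y' i n hT hi hP ih Δ hΔ
    obtain ⟨υ, h1, h2⟩ := hP
    intro j z hzj hz
    have hci := hX.cy i
    obtain ⟨s⟩ := exists_SB hci.homEqNum
    obtain ⟨b, hb⟩ := exists_monoBasis (ops := ops) (⟨(X i).X, 0⟩ : Polarized 𝒱) s.e n
    have hinv := hX.inv_step e hT hi (isPowAct h1 h2) hb (z := z) (j := j) hΔ hz
    have hsk : ∀ x y : transcendental W (X i).X, rform W (X i).X (transcendental W (X i).X) x y =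
        (-1 : W.K) * rform W (X i).X (transcendental W (X i).X) y x := fun x y =>
      (tr_sk hci.middle hci.odd x y).trans (neg_one_mul _).symm
    obtain ⟨R, hR⟩ := exists_inv_gram (s := (-1 : W.K))
      (B := rform W (X i).X (transcendental W (X i).X)) hsk (trans_nondeg hci.homEqNum) s.uT
    refine step_of_Tgt (P := (⟨(X i).X, 0⟩ : Polarized 𝒱)) hci.homEqNum hci.middle
      (isGalois hci.galois) (isPowAct h1 h2) s hΔ hzj hz ?_ fun Δ' hΔ' _ => ih Δ' hΔ'
    refine mem_Tgt_of_gen (P := (⟨(X i).X, 0⟩ : Polarized 𝒱)) hb hci.middle fun c₀ => ?_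
    have h3 := TH125.Nod.fft (K := W.K) (κ := fun _ : Fin s.NT => ())
      (Q := gram (P := (⟨(X i).X, 0⟩ : Polarized 𝒱)) s) (R := R)
      (s := fun _ => -1) (fun _ => Or.inr rfl) (fun a b hab => absurd rfl hab)
      (fun a b => by
        rw [Int.cast_neg, Int.cast_one]
        exact hsk (s.uT a) (s.uT b)) hR
      (Fintype.card (Free c₀)) (Free c₀) (fun _ => ()) _ rfl
      (fun r hr => absurd (fun _ => rfl) hr) (by simpa using hinv c₀)
      (fun _ h => absurd h (by norm_num))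
    have h4 : (fun r : Free c₀ → Fin s.NT =>
        hS (P := (⟨(X i).X, 0⟩ : Polarized 𝒱)) s b z c₀ fun j => s.uT (r j)) =
        fun r : Free c₀ → Fin s.NT => hml (P := (⟨(X i).X, 0⟩ : Polarized 𝒱)) s.e b z
          fun p => s.es (comb c₀ r p) := by
      funext r
      exact hS_comb z c₀ r
    rw [← h4]
    exact h3
  induction hY with
  | base => exact hZ
  | @small S L Y Y' i n hT hi hn hP ih => exact key i n hT hi hP ih
  | @large S L Y Y' i n hT hi hP ih => exact key i n hT hi hP ih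

/-- from the product to the base -/
theorem CyFamily.conv (hX : CyFamily D χ q X Z) (hY : LTower X Z S L Y) {Δ : Subgroup Γ}
    (hT : TC W χ Δ Y.X Y.act) : TC W χ Δ Z.X Z.act := by
  have hne : ∀ i, (1 : W.H (X i).X) ≠ 0 := by
    intro i h3
    have h1 := (hX.cy i).pos
    have h4 : Subsingleton (transcendental W (X i).X) := by
      refine ⟨fun a b => Subtype.ext ?_⟩
      rw [← one_mul (a : W.H (X i).X), ← one_mul (b : W.H (X i).X), h3, zero_mul, zero_mul]
    rw [Module.finrank_zero_of_subsingleton] at h1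
    omega
  induction hY with
  | base => exact hT
  | @small S L Y Y' i n _ hi hn hP ih =>
    obtain ⟨υ, h1, h2⟩ := hP
    exact ih (conv_exact (P := ⟨(X i).X, 0⟩) (hX.cy i).homEqNum (hne i) (isPowAct h1 h2) hT)
  | @large S L Y Y' i n _ hi hP ih =>
    obtain ⟨υ, h1, h2⟩ := hP
    exact ih (conv_exact (P := ⟨(X i).X, 0⟩) (hX.cy i).homEqNum (hne i) (isPowAct h1 h2) hT)

/-- **The theorem.** -/
theorem CyFamily.iff (e : W.K ≃+* ℂ) (hX : CyFamily D χ q X Z) (hY : LTower X Z S L Y)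
    (hG : GaloisType χ Y) :
    (∀ Δ : Subgroup Γ, Δ.FiniteIndex → TateOver χ Δ Y) ↔ TateConjecture χ Z := by
  constructor
  · rintro h1 j c hcj ⟨Δ, hΔ, hc⟩
    exact hX.conv hY (tc_of_tateOver (h1 Δ hΔ)) j c hcj hc
  · intro hZ Δ hΔ
    exact tateOver_of_tc hG (tc_tower e hX (fun Δ' hΔ' => tc_of_tate (D := D0 χ) hZ hΔ') hY Δ hΔ)

end Run7.h552.CT
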