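import Pool.Agent.Run7.h552.CT.Gou

/-!
# Members of Calabi-Yau type of weight three
-/

set_option autoImplicit false
set_option linter.unusedSectionVars false

namespace Run7.h552.CT

open Module Finset Function Pool.Agent.TH125.Gal Pool.Agent.Y127.G Pool.Agent.Y127.C
  Pool.Agent.Y95.ZT

noncomputable section

variable {K : Type} [Field K] [CharZero K]

/-- the weights `h + 3`, `h + 2`, `h + 1`, `h` with the multiplicities `1`, `q`, `q`, `1` -/
def cyW (q : ℕ) (h : ℤ) : Multiset ℤ :=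
  {h + 3} + Multiset.replicate q (h + 2) + Multiset.replicate q (h + 1) + {h}

theorem count_cy3 {q : ℕ} {h : ℤ} : (cyW q h).count (h + 3) = 1 := by
  rw [cyW, Multiset.count_add, Multiset.count_add, Multiset.count_add, Multiset.count_replicate,
    Multiset.count_replicate, Multiset.count_singleton, Multiset.count_singleton, if_pos rfl,
    if_neg (by omega), if_neg (by omega), if_neg (by omega)]

theorem count_cy2 {q : ℕ} {h : ℤ} : (cyW q h).count (h + 2) = q := by
  rw [cyW, Multiset.count_add, Multiset.count_add, Multiset.count_add, Multiset.count_replicate,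
    Multiset.count_replicate, Multiset.count_singleton, Multiset.count_singleton,
    if_neg (by omega), if_pos rfl, if_neg (by omega), if_neg (by omega)]
  omega

theorem count_cy0 {q : ℕ} {h : ℤ} : (cyW q h).count h = 1 := by
  rw [cyW, Multiset.count_add, Multiset.count_add, Multiset.count_add, Multiset.count_replicate,
    Multiset.count_replicate, Multiset.count_singleton, Multiset.count_singleton,
    if_neg (by omega), if_neg (by omega), if_neg (by omega), if_pos rfl]

theorem count_cy1 {q : ℕ} {h : ℤ} : (cyW q h).count (h + 1) = q := by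
  rw [cyW, Multiset.count_add, Multiset.count_add, Multiset.count_add, Multiset.count_replicate,
    Multiset.count_replicate, Multiset.count_singleton, Multiset.count_singleton,
    if_neg (by omega), if_neg (by omega), if_pos rfl, if_neg (by omega)]
  omega

theorem mem_cyW {q : ℕ} {h z : ℤ} (hz : z ∈ cyW q h) :
    z = h + 3 ∨ z = h + 2 ∨ z = h + 1 ∨ z = h := by
  rw [cyW, Multiset.mem_add, Multiset.mem_add, Multiset.mem_add, Multiset.mem_singleton,
    Multiset.mem_singleton] at hz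
  rcases hz with ((h1 | h1) | h1) | h1
  · exact Or.inl h1
  · exact Or.inr (Or.inl (Multiset.eq_of_mem_replicate h1))
  · exact Or.inr (Or.inr (Or.inl (Multiset.eq_of_mem_replicate h1)))
  · exact Or.inr (Or.inr (Or.inr h1))

section lin

variable {T : Type} [AddCommGroup T] [Module K T] [Module.Finite K T] {κ : Type} [Fintype κ]
  {b : Basis κ K T} {w : κ → ℤ} {J : Module.End K T} {h : ℤ} {q : ℕ}
  {B : T →ₗ[K] T →ₗ[K] K}

theorem card_cy (hw : (univ : Finset κ).val.map w = cyW q h) : Fintype.card κ = 2 * q + 2 := by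
  have h1 := congrArg Multiset.card hw
  rw [Multiset.card_map, cyW, Multiset.card_add, Multiset.card_add, Multiset.card_add,
    Multiset.card_singleton, Multiset.card_singleton, Multiset.card_replicate,
    Multiset.card_replicate] at h1
  have h2 : (univ : Finset κ).val.card = Fintype.card κ := rfl
  omega

theorem finrank_cy (b : Basis κ K T) (hw : (univ : Finset κ).val.map w = cyW q h) :
    finrank K T = 2 * q + 2 := by
  rw [finrank_eq_card_basis b, card_cy hw]

theorem sum_cy {M : Type} [AddCommMonoid M] (f : ℤ → M)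
    (hw : (univ : Finset κ).val.map w = cyW q h) :
    ∑ k, f (w k) = f (h + 3) + q • f (h + 2) + q • f (h + 1) + f h := by
  have h1 : ∑ k, f (w k) = ((cyW q h).map f).sum := by
    rw [← hw, Multiset.map_map]
    rfl
  rw [h1, cyW, Multiset.map_add, Multiset.map_add, Multiset.map_add, Multiset.sum_add,
    Multiset.sum_add, Multiset.sum_add, Multiset.map_replicate, Multiset.map_replicate,
    Multiset.sum_replicate, Multiset.sum_replicate, Multiset.map_singleton,
    Multiset.map_singleton, Multiset.sum_singleton, Multiset.sum_singleton]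

/-- the centred weights -/
def cw (w : κ → ℤ) (h : ℤ) (k : κ) : ℤ := 2 * w k - (2 * h + 3)

theorem exists_CyB (hw : (univ : Finset κ).val.map w = cyW q h) :
    ∃ kp km, CyB (cw w h) kp km := by
  classical
  have h1 : ∀ k, w k = h + 3 ∨ w k = h + 2 ∨ w k = h + 1 ∨ w k = h := by
    intro k
    apply mem_cyW (q := q)
    rw [← hw]
    exact Multiset.mem_map_of_mem w (Finset.mem_univ k)
  have h2 : Fintype.card {k : κ // w k = h + 3} = 1 := by rw [card_wt hw, count_cy3]
  have h3 : Fintype.card {k : κ // w k = h} = 1 := by rw [card_wt hw, count_cy0]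
  obtain ⟨⟨kp, hkp⟩, hp⟩ := Fintype.card_eq_one_iff.1 h2
  obtain ⟨⟨km, hkm⟩, hm⟩ := Fintype.card_eq_one_iff.1 h3
  refine ⟨kp, km, ⟨fun k => ?_, ?_, ?_, fun k hk => ?_, fun k hk => ?_⟩⟩
  · rw [mem_cyS, cw]
    have := h1 k
    omega
  · rw [cw]; omega
  · rw [cw]; omega
  · rw [cw] at hk
    exact congrArg Subtype.val (hp ⟨k, by omega⟩)
  · rw [cw] at hk
    exact congrArg Subtype.val (hm ⟨k, by omega⟩)

/-- the centred operator -/
def cJ (J : Module.End K T) (h : ℤ) : Module.End K T := (2 : K) • J - ((2 * h + 3 : ℤ) : K) • 1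

theorem cJ_b (hJ : ∀ k, J (b k) = (w k : K) • b k) (k : κ) :
    cJ J h (b k) = (cw w h k : K) • b k := by
  rw [cJ, LinearMap.sub_apply, LinearMap.smul_apply, LinearMap.smul_apply, Module.End.one_apply,
    hJ, smul_smul, ← sub_smul, cw]
  push_cast
  rfl

theorem J_eq (J : Module.End K T) (h : ℤ) :
    J = (2 : K)⁻¹ • cJ J h + ((2 : K)⁻¹ * ((2 * h + 3 : ℤ) : K)) • 1 := by
  rw [cJ, smul_sub, smul_smul, smul_smul, inv_mul_cancel₀ two_ne_zero, one_smul,
    sub_add_cancel]

/-- brackets with `J` -/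
theorem br_cJ (J X : Module.End K T) (h : ℤ) : br J X = (2 : K)⁻¹ • br (cJ J h) X := by
  conv_lhs => rw [J_eq J h]
  rw [br_scalar_left, br_smul_left]

/-- the operators of extreme degree -/
theorem ext_line {c : κ → ℤ} {D : Module.End K T} {kp km : κ}
    (hD : ∀ k, D (b k) = (c k : K) • b k) (hc : CyB c kp km) (hsk : Skew B D)
    (hnd : ∀ x, (∀ y, B x y = 0) → x = 0) {X : Module.End K T} (hX : br D X = (6 : K) • X) :
    ∃ a : K, X = a • oo B (-1) (b kp) (b kp) := by
  classical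
  have h1 : ∀ k, D (X (b k)) = ((6 + c k : ℤ) : K) • X (b k) := by
    intro k
    have h2 := LinearMap.congr_fun hX (b k)
    rw [br, LinearMap.sub_apply, Module.End.mul_apply, Module.End.mul_apply, hD, map_smul,
      LinearMap.smul_apply, sub_eq_iff_eq_add] at h2
    rw [h2, ← add_smul]
    push_cast
    rfl
  have h2 : ∀ k, c k ≠ -3 → X (b k) = 0 := by
    intro k hk
    rw [← b.sum_repr (X (b k))]
    refine Finset.sum_eq_zero fun l _ => ?_
    rw [eig_repr hD (h1 k) l, zero_smul]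
    intro h3
    have h4 : c l = 6 + c k := by exact_mod_cast h3
    have h5 := mem_cyS.1 (hc.all k)
    have h6 := mem_cyS.1 (hc.all l)
    omega
  have h3 : X (b km) = b.repr (X (b km)) kp • b kp := by
    conv_lhs => rw [← b.sum_repr (X (b km))]
    rw [Finset.sum_eq_single kp]
    · intro l _ hl
      rw [eig_repr hD (h1 km) l, zero_smul]
      intro h4
      have h5 : c l = 6 + c km := by exact_mod_cast h4
      rw [hc.m] at h5
      exact hl (hc.pu l h5)
    · exact fun h => absurd (Finset.mem_univ _) h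
  have hpm := form_pm hD hc hsk hnd
  refine ⟨b.repr (X (b km)) kp * (2 * B (b kp) (b km))⁻¹, ?_⟩
  apply b.ext
  intro k
  rw [LinearMap.smul_apply, oom_self, smul_smul]
  by_cases hk : c k = -3
  · rw [hc.mu k hk, inv_mul_cancel_right₀ (mul_ne_zero two_ne_zero hpm)]
    exact h3
  · have h4 : B (b kp) (b k) = 0 := form_wt hD hsk (by rw [hc.p]; omega)
    rw [h2 k hk, h4, mul_zero, mul_zero, zero_smul]

theorem ext_eig {c : κ → ℤ} {D : Module.End K T} {kp km : κ}
    (hD : ∀ k, D (b k) = (c k : K) • b k) (hc : CyB c kp km) (hsk : Skew B D) :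
    br D (oo B (-1) (b kp) (b kp)) = (6 : K) • oo B (-1) (b kp) (b kp) := by
  rw [br_oom hsk, hD, hc.p, oo_smul_left, smul_smul]
  congr 1
  norm_num

end lin

variable {Γ : Type} [Group Γ] {ι : Type} {N : ι → FRep K Γ} {t t' : ι}

/-- The centred operator is skew. -/
theorem cy_skew (fr : Frm N t) (sy : ∀ x y, fr.B x y = -fr.B y x)
    (nd : ∀ x, (∀ y, fr.B x y = 0) → x = 0) {J : ∀ i, (N i).V →ₗ[K] (N i).V} (hJG : J ∈ GG N)
    {q : ℕ} {h : ℤ} {κ : Type} [Fintype κ] {b : Basis κ K (N t).V} {w : κ → ℤ}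
    (hJ : ∀ k, J t (b k) = (w k : K) • b k) (hw : (univ : Finset κ).val.map w = cyW q h) :
    Skew fr.B (cJ (J t) h) := by
  obtain ⟨a, ha⟩ := fr.der hJG
  have h1 : Skew fr.B ((2 : K) • J t - a • (1 : Module.End K (N t).V)) := by
    intro x y
    have h2 := ha x y
    simp only [LinearMap.sub_apply, LinearMap.smul_apply, Module.End.one_apply, map_sub, map_smul,
      smul_eq_mul]
    linear_combination 2 * h2
  have h2 := trace_skewS sy nd h1
  have h3 : LinearMap.trace K (N t).V (J t) = (q + 1 : K) * (2 * h + 3) := by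
    rw [trace_diag (b := b) (a := fun k => (w k : K)) hJ, sum_cy (fun z : ℤ => (z : K)) hw]
    push_cast
    simp only [nsmul_eq_mul]
    ring
  rw [map_sub, map_smul, map_smul, LinearMap.trace_one, h3, finrank_cy b hw, smul_eq_mul,
    smul_eq_mul] at h2
  have h4 : ((q + 1 : ℕ) : K) ≠ 0 := Nat.cast_ne_zero.2 (by omega)
  have h5 : (2 : K) * ((q + 1 : ℕ) : K) * ((2 * h + 3) - a) = 0 := by
    push_cast at h2 ⊢
    linear_combination h2
  have h6 : a = ((2 * h + 3 : ℤ) : K) := by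
    push_cast
    exact (sub_eq_zero.1 ((mul_eq_zero.1 h5).resolve_left (mul_ne_zero two_ne_zero h4))).symm
  rw [cJ, ← h6]
  exact h1

/-- **Members of Calabi-Yau type**: the whole symplectic Lie algebra. -/
theorem exists_Ful_cy (e : K ≃+* ℂ) (fr : Frm N t) (sy : ∀ x y, fr.B x y = -fr.B y x)
    (nd : ∀ x, (∀ y, fr.B x y = 0) → x = 0) (si : SI (N t).ρ)
    {J : ∀ i, (N i).V →ₗ[K] (N i).V} (hJG : J ∈ GG N) {q : ℕ}
    (hq : q ∉ ({1, 3, 6, 9, 15, 27} : Finset ℕ)) (hT : q = 0 ∨ ¬TenRep (N t).ρ) {h : ℤ}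
    (hW : HasWeights (J t) (cyW q h)) : ∃ o : FulS N t, o.toFrm = fr := by
  obtain ⟨κ, hκ, b, w, hJ, hw⟩ := hW
  obtain ⟨kp, km, hc⟩ := exists_CyB hw
  have hsk := cy_skew fr sy nd hJG hJ hw
  have hall : ∀ x y, oo fr.B (-1) x y ∈ frL fr := by
    intro x y
    refine full_cy e si sy nd (cJ_b hJ) hc (finrank_cy b hw) hq hT (L := frL fr) ?_
      (fun A hA A' hA' => frL_br fr A hA A' hA') (fun A hA => hA.1)
      (fun γ A hA => frL_conj fr γ A hA) x y
    refine ⟨hsk, (2 : K) • J, (GG N).smul_mem _ hJG, ((2 * h + 3 : ℤ) : K), ?_⟩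
    rw [Pi.smul_apply, cJ, sub_add_cancel]
  exact ⟨⟨fr, sy, nd, si, b kp, b km, form_pm (cJ_b hJ) hc hsk nd, fun x y => (hall x y).2⟩, rfl⟩

/-- **Members which are not isomorphic.** -/
theorem good_cy (o : FulS N t) (o' : FulS N t') {J : ∀ i, (N i).V →ₗ[K] (N i).V} (hJG : J ∈ GG N)
    {q q' : ℕ} {h h' : ℤ} (hW : HasWeights (J t) (cyW q h)) (hW' : HasWeights (J t') (cyW q' h'))
    (hiso : ¬IsoUpTo (N t') (N t)) : Good N t t' := by
  obtain ⟨κ, hκ, b, w, hJ, hw⟩ := hW
  obtain ⟨kp, km, hc⟩ := exists_CyB hw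
  have hsk := cy_skew o.toFrm o.sy o.nd hJG hJ hw
  obtain ⟨κ', hκ', b', w', hJ', hw'⟩ := hW'
  obtain ⟨kp', km', hc'⟩ := exists_CyB hw'
  have hsk' := cy_skew o'.toFrm o'.sy o'.nd hJG hJ' hw'
  by_contra hng
  have h0 : ∀ D ∈ GG1 N, D t' = 0 → D t = 0 := by
    intro D hD ha
    by_contra ht
    exact hng ⟨D, hD, ha, ht⟩
  have h0' : ∀ D ∈ GG1 N, D t = 0 → D t' = 0 := by
    intro D hD ha
    by_contra ht
    exact hng (o.good_symm o' ⟨D, hD, ha, ht⟩)
  have hlift : ∀ X : Module.End K (N t').V, Skew o'.B X → ∃ D ∈ GG1 N, D t' = X := fun X hX =>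
    skew_memS (a := res (GG1 N) t') o'.sy o'.nd (fun x y => o'.full x y) hX
  let f : GG1 N →ₗ[K] Module.End K (N t').V :=
    (LinearMap.proj t' : (∀ i, (N i).V →ₗ[K] (N i).V) →ₗ[K] _) ∘ₗ (GG1 N).subtype
  let g : GG1 N →ₗ[K] Module.End K (N t).V :=
    (LinearMap.proj t : (∀ i, (N i).V →ₗ[K] (N i).V) →ₗ[K] _) ∘ₗ (GG1 N).subtype
  obtain ⟨Φ, hΦ⟩ := exists_factor f g fun x hx => h0 x.1 x.2 hx
  have hΦ' : ∀ D ∈ GG1 N, Φ (D t') = D t := fun D hD => hΦ ⟨D, hD⟩
  have hΦs : ∀ X, Skew o'.B X → Skew o.B (Φ X) := by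
    intro X hX
    obtain ⟨D, hD, rfl⟩ := hlift X hX
    rw [hΦ' D hD]
    exact o.skew hD
  have hΦb : ∀ X Y, Skew o'.B X → Skew o'.B Y → Φ (br X Y) = br (Φ X) (Φ Y) := by
    intro X Y hX hY
    obtain ⟨D, hD, rfl⟩ := hlift X hX
    obtain ⟨D', hD', rfl⟩ := hlift Y hY
    rw [hΦ' D hD, hΦ' D' hD', ← brk_eq_br, hΦ' _ (brk_mem1 (GG1_le hD) (GG1_le hD')), brk_eq_br]
  -- the operators of extreme degree
  obtain ⟨c, hc0, hΦv⟩ : ∃ c : K, c ≠ 0 ∧
      Φ (oo o'.B (-1) (b' kp') (b' kp')) = c • oo o.B (-1) (b kp) (b kp) := by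
    obtain ⟨D, hD, hDt⟩ := hlift _ (oom_skew o'.sy (b' kp') (b' kp'))
    have h1 : br (J t') (D t') = (3 : K) • D t' := by
      rw [hDt, br_cJ (J t') _ h', ext_eig (cJ_b hJ') hc' hsk', smul_smul]
      congr 1
      norm_num
    have h2 : br (J t) (D t) = (3 : K) • D t := by
      have h3 := hΦ' _ (brk_mem1 hJG (GG1_le hD))
      rw [brk_eq_br, brk_eq_br, h1, map_smul, hΦ' D hD] at h3
      exact h3.symm
    have h3 : br (cJ (J t) h) (D t) = (6 : K) • D t := by
      have h4 := congrArg (fun X => (2 : K) • X) h2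
      rw [br_cJ (J t) _ h, smul_smul, mul_inv_cancel₀ (two_ne_zero (α := K)), one_smul,
        smul_smul] at h4
      rw [h4]
      congr 1
      norm_num
    obtain ⟨c, hcX⟩ := ext_line (cJ_b hJ) hc hsk o.nd h3
    refine ⟨c, ?_, by rw [← hDt, hΦ' D hD, hcX]⟩
    rintro rfl
    rw [zero_smul] at hcX
    have h5 := h0' D hD hcX
    rw [hDt] at h5
    have h6 : b' kp' = 0 := oom_inj o'.sy o'.nd (b'.ne_zero kp') h5
    exact b'.ne_zero kp' h6
  obtain ⟨ψ, hψ0, hψ, hψu⟩ := exists_psiS o.sy o.nd o'.sy o'.nd hΦs hΦb hc0 (b.ne_zero kp)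
    (b'.ne_zero kp') hΦv
  have h1 : ∀ γ : Γ, ∃ e : K, (N t).ρ γ⁻¹ ∘ₗ ψ ∘ₗ (N t').ρ γ = e • ψ := by
    intro γ
    refine hψu _ fun X hX x => ?_
    obtain ⟨D, hD, rfl⟩ := hlift X hX
    rw [hΦ' D hD]
    have h2 := hψ (cnj γ D t') (o'.skew (GG1_cnj hD γ)) ((N t').ρ γ x)
    rw [hΦ' _ (GG1_cnj hD γ), cnj_apply, cnj_apply, FRep.inv_left] at h2
    rw [LinearMap.comp_apply, LinearMap.comp_apply, h2, FRep.inv_left]
    rfl
  choose ε hε using h1
  have hε' : ∀ γ x, ψ ((N t').ρ γ x) = ε γ • (N t).ρ γ (ψ x) := by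
    intro γ x
    have h2 := LinearMap.congr_fun (hε γ) x
    rw [LinearMap.comp_apply, LinearMap.comp_apply, LinearMap.smul_apply] at h2
    rw [← map_smul, ← h2, FRep.inv_right]
  apply hiso
  have hker : LinearMap.ker ψ = ⊥ := by
    refine (o'.si ⊤ inferInstance (LinearMap.ker ψ) fun g _ x hx => ?_).resolve_right fun h => ?_
    · rw [LinearMap.mem_ker] at hx ⊢
      rw [hε', hx, map_zero, smul_zero]
    · exact hψ0 (LinearMap.ker_eq_top.1 h)
  have hne : ∀ γ, ε γ ≠ 0 := by
    intro γ h0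
    apply hψ0
    apply LinearMap.ext
    intro x
    have h1 := hε' γ ((N t').ρ γ⁻¹ x)
    rw [FRep.inv_right, h0, zero_smul] at h1
    rw [h1, LinearMap.zero_apply]
  have hrange : LinearMap.range ψ = ⊤ := by
    refine (o.si ⊤ inferInstance (LinearMap.range ψ) ?_).resolve_left fun h => ?_
    · rintro g - _ ⟨x, rfl⟩
      refine ⟨(ε g)⁻¹ • (N t').ρ g x, ?_⟩
      rw [map_smul, hε', smul_smul, inv_mul_cancel₀ (hne g), one_smul]
    · exact hψ0 (LinearMap.range_eq_bot.1 h)
  exact ⟨LinearEquiv.ofBijective ψ ⟨LinearMap.ker_eq_bot.1 hker, LinearMap.range_eq_top.1 hrange⟩,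
    ε, hε'⟩

/-- **The gap criterion.** -/
theorem good_of_gapS (o : FulS N t) {J : ∀ i, (N i).V →ₗ[K] (N i).V} (hJG : J ∈ GG N)
    {q : ℕ} {h : ℤ} (hW : HasWeights (J t) (cyW q h)) {a : ι} {s : Multiset ℤ}
    (hs : HasWeights (J a) s)
    (hg : wgaps s 3 = 0 ∨ wgaps s 2 < q ∨ wgaps s 1 < (∑ i ∈ range (q + 1), i) + q) :
    Good N t a := by
  classical
  obtain ⟨κ, hκ, b, w, hJ, hw⟩ := hW
  obtain ⟨κ', hκ', b', w', hJ', hw'⟩ := hs
  obtain ⟨kp, km, hc⟩ := exists_CyB hw
  have hsk := cy_skew o.toFrm o.sy o.nd hJG hJ hw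
  have heig : ∀ i j : κ, br (J t) (oo o.B (-1) (b i) (b j)) =
      ((w i : K) + w j - (2 * h + 3)) • oo o.B (-1) (b i) (b j) := by
    intro i j
    rw [br_cJ (J t) _ h, br_oo hsk, cJ_b hJ, cJ_b hJ, oo_smul_left, oo_smul_right, ← add_smul,
      smul_smul, cw, cw]
    congr 1
    have : (2 : K) ≠ 0 := two_ne_zero
    push_cast
    field_simp
    ring
  have hwp : w kp = h + 3 := by
    have := hc.p
    rw [cw] at this
    omega
  rcases hg with hg | hg | hg
  · refine o.good_of_eig hJG b' (fun k => (w' k : K)) hJ' ((3 : ℤ) : K)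
      (v := fun _ : Unit => oo o.B (-1) (b kp) (b kp)) ?_ (fun x => oom_skew o.sy _ _)
      (fun x => ?_) ?_
    · rw [linearIndependent_unique_iff]
      intro h0
      exact b.ne_zero kp (oom_inj o.sy o.nd (b.ne_zero kp) h0)
    · rw [heig, hwp]
      congr 1
      push_cast
      ring
    · rw [wgaps_eq (K := K) hw' 3, hg]
      exact Fintype.card_pos
  · let f : {k : κ // w k = h + 2} → κ × κ := fun x => (kp, x.1)
    have hf : Function.Injective f := by
      rintro ⟨x, hx⟩ ⟨y, hy⟩ hxy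
      simp only [f, Prod.mk.injEq, true_and] at hxy
      subst hxy
      rfl
    have hs : ∀ x y, f y = (f x).swap → y = x := by
      rintro ⟨x, hx⟩ ⟨y, hy⟩ hxy
      simp only [f, Prod.swap_prod_mk, Prod.mk.injEq] at hxy
      obtain ⟨h1, h2⟩ := hxy
      rw [← h1] at hx
      omega
    refine o.good_of_eig hJG b' (fun k => (w' k : K)) hJ' ((2 : ℤ) : K)
      (li_oom (b := b) o.nd hf hs) (fun x => oom_skew o.sy _ _) (fun x => ?_) ?_
    · rw [heig]
      congr 1
      rw [show w (f x).1 = h + 3 from hwp, show w (f x).2 = h + 2 from x.2]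
      push_cast
      ring
    · rw [wgaps_eq (K := K) hw' 2, card_wt hw, count_cy2]
      exact hg
  · have hc2 : Fintype.card {k : κ // w k = h + 2} = q := by rw [card_wt hw, count_cy2]
    let e : Fin q ≃ {k : κ // w k = h + 2} := (Fintype.equivFinOfCardEq hc2).symm
    let f : {x : Fin q × Fin q // x.1 ≤ x.2} ⊕ {k : κ // w k = h + 1} → κ × κ :=
      Sum.elim (fun x => ((e x.1.1).1, (e x.1.2).1)) (fun k => (kp, k.1))
    have hei : ∀ x y, (e x).1 = (e y).1 → x = y := fun x y hxy => e.injective (Subtype.ext hxy)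
    have hf : Function.Injective f := by
      rintro (⟨⟨x1, x2⟩, hx⟩ | ⟨x, hx⟩) (⟨⟨y1, y2⟩, hy⟩ | ⟨y, hy⟩) hxy
      · simp only [f, Sum.elim_inl, Prod.mk.injEq] at hxy
        obtain ⟨h1, h2⟩ := hxy
        rw [Sum.inl.injEq, Subtype.mk.injEq, Prod.mk.injEq]
        exact ⟨hei _ _ h1, hei _ _ h2⟩
      · simp only [f, Sum.elim_inl, Sum.elim_inr, Prod.mk.injEq] at hxy
        have h1 := (e x1).2
        rw [hxy.1] at h1
        omega
      · simp only [f, Sum.elim_inl, Sum.elim_inr, Prod.mk.injEq] at hxy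
        have h1 := (e y1).2
        rw [← hxy.1] at h1
        omega
      · simp only [f, Sum.elim_inr, Prod.mk.injEq, true_and] at hxy
        subst hxy
        rfl
    have hs : ∀ x y, f y = (f x).swap → y = x := by
      rintro (⟨⟨x1, x2⟩, hx⟩ | ⟨x, hx⟩) (⟨⟨y1, y2⟩, hy⟩ | ⟨y, hy⟩) hxy
      · simp only [f, Sum.elim_inl, Prod.mk.injEq, Prod.swap_prod_mk] at hxy
        obtain ⟨h1, h2⟩ := hxy
        have e1 := hei _ _ h1
        have e2 := hei _ _ h2
        have h3 : x1 ≤ x2 := hx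
        have h4 : y1 ≤ y2 := hy
        subst e1 e2
        have h5 := le_antisymm h3 h4
        subst h5
        rfl
      · simp only [f, Sum.elim_inl, Sum.elim_inr, Prod.mk.injEq, Prod.swap_prod_mk] at hxy
        have h1 := (e x2).2
        rw [← hxy.1] at h1
        omega
      · simp only [f, Sum.elim_inl, Sum.elim_inr, Prod.mk.injEq, Prod.swap_prod_mk] at hxy
        have h1 := (e y2).2
        rw [hxy.2] at h1
        omega
      · simp only [f, Sum.elim_inr, Prod.mk.injEq, Prod.swap_prod_mk] at hxy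
        rw [← hxy.1] at hx
        omega
    refine o.good_of_eig hJG b' (fun k => (w' k : K)) hJ' ((1 : ℤ) : K)
      (li_oom (b := b) o.nd hf hs) (fun x => oom_skew o.sy _ _) (fun x => ?_) ?_
    · rw [heig]
      congr 1
      rcases x with x | x
      · rw [show w (f (Sum.inl x)).1 = h + 2 from (e x.1.1).2,
          show w (f (Sum.inl x)).2 = h + 2 from (e x.1.2).2]
        push_cast
        ring
      · rw [show w (f (Sum.inr x)).1 = h + 3 from hwp, show w (f (Sum.inr x)).2 = h + 1 from x.2]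
        push_cast
        ring
    · rw [wgaps_eq (K := K) hw' 1, Fintype.card_sum, card_le, card_wt hw, count_cy1]
      exact hg

end

end Run7.h552.CT
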